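import Mathlib

/-!
# Definitions for MP_0a0262_co (S07083): bijections of small average stretch

`Q N = Fin N → Bool` is the cube, `fl x i` is `x` with coordinate `i` flipped, `Lip c f` says that
`f` changes by at most `c` along the edges, `dd j f` is half of the difference of `f` in direction `j`.
-/

set_option autoImplicit false

namespace Pool.Agent.Helper79.ST

open Finset

/-- The cube. -/
abbrev Q (N : ℕ) : Type := Fin N → Bool

/-- `x` with the coordinate `i` flipped. -/
def fl {N : ℕ} (x : Q N) (i : Fin N) : Q N := Function.update x i (!x i)

/-- `f` is `c`-Lipschitz for the Hamming distance. -/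
def Lip {N : ℕ} (c : ℝ) (f : Q N → ℝ) : Prop := ∀ x i, |f x - f (fl x i)| ≤ c

/-- The sign of a bit. -/
noncomputable def sg (b : Bool) : ℝ := if b then 1 else -1

/-- The discrete derivative in direction `j` (it does not depend on `x j`). -/
noncomputable def dd {N : ℕ} (j : Fin N) (f : Q N → ℝ) (x : Q N) : ℝ :=
  (f (Function.update x j true) - f (Function.update x j false)) / 2

/-- The Hamming distance as a real number. -/
noncomputable def hd {N : ℕ} (x y : Q N) : ℝ := (hammingDist x y : ℝ)

/-- The embedding of the `n`-cube in the `(n+1)`-cube (last coordinate `true`). -/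
def emb {n : ℕ} (x : Q n) : Q (n + 1) := Fin.snoc (α := fun _ => Bool) x true

end Pool.Agent.Helper79.ST
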