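import Mathlib
import Pool.Agent.Helper79.ST.Defs

/-! # Package B: the projection on the `β`-Lipschitz functions -/

set_option autoImplicit false

namespace Pool.Agent.Helper79.ST

open Finset

namespace PB

/-- The functional. -/
noncomputable def Phi {N : ℕ} (h u : Q N → ℝ) : ℝ := ∑ x, (h x - u x) ^ 2

/-- Truncation to `[0, 2]`. -/
noncomputable def clamp {N : ℕ} (v : Q N → ℝ) : Q N → ℝ := fun x => max 0 (min 2 (v x))

lemma abs_clamp (a b : ℝ) : |max 0 (min 2 a) - max 0 (min 2 b)| ≤ |a - b| :=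
  (by
    have h1 := abs_max_sub_max_le_max 0 (min 2 a) 0 (min 2 b)
    have h2 := abs_min_sub_min_le_max 2 a 2 b
    simp only [sub_self, abs_zero] at h1 h2
    exact (h1.trans_eq (max_eq_right (abs_nonneg _))).trans
      (h2.trans_eq (max_eq_right (abs_nonneg _))))

lemma exists_min {N : ℕ} (h : Q N → ℝ) (h0 : ∀ x, 0 ≤ h x) (h2 : ∀ x, h x ≤ 2) (β : ℝ)
    (hβ : 0 < β) : ∃ u : Q N → ℝ, (∀ x, 0 ≤ u x) ∧ (∀ x, u x ≤ 2) ∧ Lip β u ∧
      ∀ v, Lip β v → Phi h u ≤ Phi h v := by
  set K : Set (Q N → ℝ) := Set.pi Set.univ (fun _ => Set.Icc (0 : ℝ) 2) ∩ {u | Lip β u} with hK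
  have hc : IsCompact K := by
    refine IsCompact.inter_right (isCompact_univ_pi fun _ => isCompact_Icc) ?_
    have : {u : Q N → ℝ | Lip β u} = ⋂ x, ⋂ i, {u | |u x - u (fl x i)| ≤ β} := by
      ext u; simp [Lip]
    rw [this]
    refine isClosed_iInter fun x => isClosed_iInter fun i => ?_
    exact isClosed_le (by fun_prop) continuous_const
  have hne : K.Nonempty := ⟨fun _ => 0, by
    refine ⟨fun x _ => ⟨le_refl _, by norm_num⟩, fun x i => ?_⟩
    simpa using hβ.le⟩
  have hcont : ContinuousOn (Phi h) K := by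
    unfold Phi
    exact (by fun_prop : Continuous fun u : Q N → ℝ => ∑ x, (h x - u x) ^ 2).continuousOn
  obtain ⟨u, huK, hu⟩ := hc.exists_isMinOn hne hcont
  refine ⟨u, fun x => (huK.1 x trivial).1, fun x => (huK.1 x trivial).2, huK.2, fun v hv => ?_⟩
  have hcv : clamp v ∈ K := by
    refine ⟨fun x _ => ⟨le_max_left _ _, max_le (by norm_num) (min_le_left _ _)⟩, fun x i => ?_⟩
    exact (abs_clamp _ _).trans (hv x i)
  refine (isMinOn_iff.mp hu _ hcv).trans ?_
  unfold Phi
  refine Finset.sum_le_sum fun x _ => ?_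
  have hh : h x = max 0 (min 2 (h x)) := by
    rw [min_eq_right (h2 x), max_eq_right (h0 x)]
  have := abs_clamp (h x) (v x)
  rw [← hh] at this
  exact sq_le_sq.mpr this

lemma variational {N : ℕ} (h u : Q N → ℝ) (β : ℝ) (hu : Lip β u)
    (hmin : ∀ v, Lip β v → Phi h u ≤ Phi h v) (v : Q N → ℝ) (hv : Lip β v) :
    ∑ x, (h x - u x) * (v x - u x) ≤ 0 := by
  set S := ∑ x, (h x - u x) * (v x - u x) with hS
  set T := ∑ x, (v x - u x) ^ 2 with hT
  have hT0 : 0 ≤ T := Finset.sum_nonneg fun x _ => sq_nonneg _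
  have key : ∀ t : ℝ, 0 < t → t ≤ 1 → 2 * S ≤ t * T := by
    intro t ht0 ht1
    have hl : Lip β fun x => u x + t * (v x - u x) := by
      intro x i
      have e : u x + t * (v x - u x) - (u (fl x i) + t * (v (fl x i) - u (fl x i))) =
          (1 - t) * (u x - u (fl x i)) + t * (v x - v (fl x i)) := by ring
      rw [e]
      calc _ ≤ |(1 - t) * (u x - u (fl x i))| + |t * (v x - v (fl x i))| := abs_add_le _ _
        _ = (1 - t) * |u x - u (fl x i)| + t * |v x - v (fl x i)| := by
            rw [abs_mul, abs_mul, abs_of_nonneg (by linarith : 0 ≤ 1 - t), abs_of_pos ht0]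
        _ ≤ (1 - t) * β + t * β :=
            add_le_add (mul_le_mul_of_nonneg_left (hu x i) (by linarith))
              (mul_le_mul_of_nonneg_left (hv x i) ht0.le)
        _ = β := by ring
    have h1 := hmin _ hl
    have h2 : Phi h (fun x => u x + t * (v x - u x)) = Phi h u - 2 * t * S + t ^ 2 * T := by
      unfold Phi
      rw [hS, hT, Finset.mul_sum, Finset.mul_sum, ← Finset.sum_sub_distrib,
        ← Finset.sum_add_distrib]
      exact Finset.sum_congr rfl fun x _ => by ring
    rw [h2] at h1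
    have h3 : t * (2 * S) ≤ t * (t * T) := by nlinarith
    exact le_of_mul_le_mul_left h3 ht0
  by_contra hcon
  push Not at hcon
  rcases hT0.eq_or_lt with h0 | h0
  · have := key 1 one_pos le_rfl
    rw [← h0] at this
    linarith
  · have := key (min 1 (S / T)) (lt_min one_pos (div_pos hcon h0)) (min_le_left _ _)
    have h4 : min 1 (S / T) * T ≤ S / T * T := by gcongr; exact min_le_right _ _
    rw [div_mul_cancel₀ _ h0.ne'] at h4
    linarith

end PB

/-- Package B (regularisation: the L2 projection of `h` on the `β`-Lipschitz functions). -/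
theorem pkgB {N : ℕ} (h : Q N → ℝ) (h0 : ∀ x, 0 ≤ h x) (h2 : ∀ x, h x ≤ 2)
    (hm : ∑ x, h x = 2 ^ N) (β : ℝ) (hβ : 0 < β) :
    ∃ u : Q N → ℝ, (∀ x, 0 ≤ u x) ∧ (∀ x, u x ≤ 2) ∧ ∑ x, u x = 2 ^ N ∧ Lip β u ∧
      ∀ f : Q N → ℝ, Lip 1 f → |∑ x, f x * (h x - u x)| ≤ 2 ^ N / (2 * β) := by
  obtain ⟨u, hu0, hu2, hL, hmin⟩ := PB.exists_min h h0 h2 β hβ
  have hvar := PB.variational h u β hL hmin
  refine ⟨u, hu0, hu2, ?_, hL, ?_⟩
  · have a1 := hvar (fun x => u x + 1) (fun x i => by simpa using hL x i)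
    have a2 := hvar (fun x => u x - 1) (fun x i => by simpa using hL x i)
    simp only [add_sub_cancel_left, mul_one] at a1
    have e : ∀ x, (h x - u x) * (u x - 1 - u x) = - (h x - u x) := fun x => by ring
    simp only [e, Finset.sum_neg_distrib, Finset.sum_sub_distrib] at a1 a2
    linarith
  · have one : ∀ f : Q N → ℝ, Lip 1 f → ∑ x, f x * (h x - u x) ≤ 2 ^ N / (2 * β) := by
      intro f hf
      have hfβ : Lip β fun x => β * f x := by
        intro x i
        rw [← mul_sub, abs_mul, abs_of_pos hβ]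
        calc β * |f x - f (fl x i)| ≤ β * 1 := by gcongr; exact hf x i
          _ = β := mul_one β
      have a := hvar _ hfβ
      have e : ∑ x, (h x - u x) * (β * f x - u x) =
          β * ∑ x, f x * (h x - u x) - ∑ x, (h x - u x) * u x := by
        rw [Finset.mul_sum, ← Finset.sum_sub_distrib]
        exact Finset.sum_congr rfl fun x _ => by ring
      rw [e] at a
      have b : ∑ x, (h x - u x) * u x ≤ 2 ^ N / 2 := by
        rw [← hm, Finset.sum_div]
        refine Finset.sum_le_sum fun x _ => ?_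
        nlinarith [sq_nonneg (h x - 2 * u x), h0 x, h2 x]
      rw [le_div_iff₀ (by positivity)]
      linarith
    intro f hf
    rw [abs_le]
    constructor
    · have := one (fun x => - f x) (fun x i => by
        have h3 := hf x i
        have e : - f x - - f (fl x i) = - (f x - f (fl x i)) := by ring
        rw [e, abs_neg]
        exact h3)
      simp only [neg_mul, Finset.sum_neg_distrib] at this
      linarith
    · exact one f hf

end Pool.Agent.Helper79.ST
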