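import Mathlib
import Pool.Agent.Helper79.ST.Defs

/-! # Package C: the vector field -/

set_option autoImplicit false

namespace Pool.Agent.Helper79.ST

open Finset

namespace PC

variable {N : ℕ}

lemma sg_sq (b : Bool) : sg b * sg b = 1 := by cases b <;> simp [sg]

lemma sg_not (b : Bool) : sg (!b) = - sg b := by cases b <;> simp [sg]

lemma sg_abs (b : Bool) : |sg b| = 1 := by cases b <;> simp [sg]

lemma fl_self (x : Q N) (i : Fin N) : fl x i i = !x i := by simp [fl]

lemma fl_ne (x : Q N) {i k : Fin N} (h : k ≠ i) : fl x i k = x k := by simp [fl, h]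

lemma fl_fl (x : Q N) (i : Fin N) : fl (fl x i) i = x := by
  funext k
  by_cases h : k = i
  · subst h; rw [fl_self, fl_self, Bool.not_not]
  · rw [fl_ne _ h, fl_ne _ h]

lemma sum_fl (g : Q N → ℝ) (i : Fin N) : ∑ y, g (fl y i) = ∑ y, g y :=
  Fintype.sum_equiv (Function.Involutive.toPerm (fun y => fl y i) fun y => fl_fl y i) _ _
    fun _ => rfl

lemma dd_eq (j : Fin N) (f : Q N → ℝ) (x : Q N) : dd j f x = sg (x j) * (f x - f (fl x j)) / 2 := by
  unfold dd fl
  cases h : x j
  · have h1 : Function.update x j false = x := by rw [← h]; exact Function.update_eq_self j x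
    rw [h1]
    simp [sg]
  · have h1 : Function.update x j true = x := by rw [← h]; exact Function.update_eq_self j x
    rw [h1]
    simp [sg]

/-- the kernel without the coordinate `j` -/
noncomputable def P (r : ℝ) (j : Fin N) (x y : Q N) : ℝ :=
  ∏ k ∈ univ.erase j, (1 + r * (sg (x k) * sg (y k))) / 2

/-- the noise kernel -/
noncomputable def K (r : ℝ) (x y : Q N) : ℝ := ∏ k, (1 + r * (sg (x k) * sg (y k))) / 2

/-- the noise operator -/
noncomputable def T (r : ℝ) (w : Q N → ℝ) (x : Q N) : ℝ := ∑ y, K r x y * w y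

lemma K_split (r : ℝ) (j : Fin N) (x y : Q N) :
    K r x y = (1 + r * (sg (x j) * sg (y j))) / 2 * P r j x y := by
  unfold K P
  exact (Finset.mul_prod_erase univ (fun k => (1 + r * (sg (x k) * sg (y k))) / 2)
    (mem_univ j)).symm

lemma P_fl (r : ℝ) (j : Fin N) (x y : Q N) : P r j x (fl y j) = P r j x y := by
  unfold P
  refine Finset.prod_congr rfl fun k hk => ?_
  rw [fl_ne _ (Finset.ne_of_mem_erase hk)]

lemma P_fl' (r : ℝ) (j : Fin N) (x y : Q N) : P r j (fl x j) y = P r j x y := by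
  unfold P
  refine Finset.prod_congr rfl fun k hk => ?_
  rw [fl_ne _ (Finset.ne_of_mem_erase hk)]

lemma sg_mul_abs (a b : Bool) : |sg a * sg b| = 1 := by rw [abs_mul, sg_abs, sg_abs, one_mul]

lemma K_nonneg {r : ℝ} (h0 : 0 ≤ r) (h1 : r ≤ 1) (x y : Q N) : 0 ≤ K r x y := by
  unfold K
  refine Finset.prod_nonneg fun k _ => ?_
  have h2 := (abs_le.1 (sg_mul_abs (x k) (y k)).le).1
  nlinarith

lemma K_sum (r : ℝ) (x : Q N) : ∑ y, K r x y = 1 := by
  unfold K
  have h := Finset.prod_univ_sum (fun _ : Fin N => (univ : Finset Bool))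
    (fun k b => (1 + r * (sg (x k) * sg b)) / 2)
  rw [Fintype.piFinset_univ] at h
  rw [← h]
  refine Finset.prod_eq_one fun k _ => ?_
  rw [Fintype.sum_bool]
  unfold sg
  simp
  ring

lemma K_fl (r : ℝ) (x y : Q N) (i : Fin N) : K r (fl x i) (fl y i) = K r x y := by
  unfold K
  refine Finset.prod_congr rfl fun k _ => ?_
  by_cases h : k = i
  · subst h
    rw [fl_self, fl_self, sg_not, sg_not]
    ring
  · rw [fl_ne _ h, fl_ne _ h]

lemma K_one (x y : Q N) : K 1 x y = if x = y then 1 else 0 := by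
  unfold K
  by_cases h : x = y
  · subst h
    rw [if_pos rfl]
    refine Finset.prod_eq_one fun k _ => ?_
    rw [sg_sq]
    norm_num
  · rw [if_neg h]
    obtain ⟨k, hk⟩ := Function.ne_iff.1 h
    refine Finset.prod_eq_zero (mem_univ k) ?_
    have : y k = !x k := by
      cases hx : x k <;> cases hy : y k <;> simp_all
    rw [this, sg_not, mul_neg, sg_sq]
    norm_num

lemma K_zero (x y : Q N) : K 0 x y = 1 / 2 ^ N := by
  unfold K
  simp

/-- the derivative of `T r w` in the direction `j` -/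
lemma T_dd (r : ℝ) (j : Fin N) (w : Q N → ℝ) (x : Q N) :
    T r (dd j w) x = ∑ y, P r j x y * (sg (y j) * w y) / 2 := by
  unfold T
  have e1 : ∀ y, K r x y * dd j w y = K r x y * sg (y j) * w y / 2 -
      K r x y * sg (y j) * w (fl y j) / 2 := by
    intro y
    rw [dd_eq]
    ring
  rw [Finset.sum_congr rfl fun y _ => e1 y, Finset.sum_sub_distrib]
  have e2 : ∑ y, K r x y * sg (y j) * w (fl y j) / 2 =
      ∑ y, K r x (fl y j) * sg (fl y j j) * w y / 2 := by
    rw [← sum_fl (fun y => K r x (fl y j) * sg (fl y j j) * w y / 2) j]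
    refine Finset.sum_congr rfl fun y _ => ?_
    rw [fl_fl]
  rw [e2, ← Finset.sum_sub_distrib]
  refine Finset.sum_congr rfl fun y _ => ?_
  rw [K_split r j x y, K_split r j x (fl y j), P_fl, fl_self, sg_not]
  ring

lemma T_dd_fl (r : ℝ) (j : Fin N) (w : Q N → ℝ) (x : Q N) :
    T r (dd j w) (fl x j) = T r (dd j w) x := by
  rw [T_dd, T_dd]
  refine Finset.sum_congr rfl fun y _ => ?_
  rw [P_fl']

lemma T_dd' (r : ℝ) (j : Fin N) (w : Q N → ℝ) (x : Q N) :
    (1 - r ^ 2) * T r (dd j w) x = ∑ y, K r x y * w y * (sg (y j) - r * sg (x j)) := by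
  rw [T_dd, Finset.mul_sum]
  refine Finset.sum_congr rfl fun y _ => ?_
  rw [K_split r j x y]
  have h1 := sg_sq (x j)
  have h2 := sg_sq (y j)
  generalize sg (x j) = a at *
  generalize sg (y j) = b at *
  have h3 : (1 + r * (a * b)) * (b - r * a) = (1 - r ^ 2) * b := by
    have : (1 + r * (a * b)) * (b - r * a) = b - r * a + r * a * (b * b) - r ^ 2 * b * (a * a) := by
      ring
    rw [this, h1, h2]
    ring
  linear_combination (-(P r j x y * w y / 2)) * h3

lemma sum_sg (f g : Q N → ℝ) (j : Fin N) (hg : ∀ x, g (fl x j) = g x) :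
    ∑ x, f x * sg (x j) * g x = ∑ x, dd j f x * g x := by
  have h1 := sum_fl (fun x => f x * sg (x j) * g x) j
  have h2 : ∑ x, f x * sg (x j) * g x = (∑ x, f x * sg (x j) * g x +
      ∑ x, f (fl x j) * sg (fl x j j) * g (fl x j)) / 2 := by
    rw [h1]; ring
  rw [h2, ← Finset.sum_add_distrib, Finset.sum_div]
  refine Finset.sum_congr rfl fun x _ => ?_
  rw [hg, fl_self, sg_not, dd_eq]
  ring

/-- the correlation function -/
noncomputable def Phi (f u : Q N → ℝ) (r : ℝ) : ℝ := ∑ x, ∑ y, f x * u y * K r x y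

lemma K_deriv (x y : Q N) (r : ℝ) :
    HasDerivAt (fun r => K r x y) (∑ j, P r j x y * (sg (x j) * sg (y j) / 2)) r := by
  unfold K P
  have h : ∀ k ∈ (univ : Finset (Fin N)), HasDerivAt
      (fun r : ℝ => (1 + r * (sg (x k) * sg (y k))) / 2) (sg (x k) * sg (y k) / 2) r := by
    intro k _
    have h1 := (((hasDerivAt_id r).mul_const (sg (x k) * sg (y k))).const_add 1).div_const 2
    simpa using h1
  have h2 := HasDerivAt.fun_finsetProd h
  simpa [smul_eq_mul] using h2

lemma Phi_deriv (f u : Q N → ℝ) (r : ℝ) :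
    HasDerivAt (Phi f u) (∑ j, ∑ x, dd j f x * T r (dd j u) x) r := by
  have h1 : HasDerivAt (Phi f u) (∑ x, ∑ y, f x * u y *
      ∑ j, P r j x y * (sg (x j) * sg (y j) / 2)) r := by
    unfold Phi
    refine HasDerivAt.fun_sum fun x _ => ?_
    refine HasDerivAt.fun_sum fun y _ => ?_
    exact (K_deriv x y r).const_mul _
  refine h1.congr_deriv ?_
  have h2 : ∀ j : Fin N, ∑ x, dd j f x * T r (dd j u) x =
      ∑ x, ∑ y, f x * u y * (P r j x y * (sg (x j) * sg (y j) / 2)) := by
    intro j
    rw [← sum_sg f (fun x => T r (dd j u) x) j fun x => T_dd_fl r j u x]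
    refine Finset.sum_congr rfl fun x _ => ?_
    rw [T_dd, Finset.mul_sum]
    refine Finset.sum_congr rfl fun y _ => ?_
    ring
  rw [Finset.sum_congr rfl fun j (_ : j ∈ univ) => h2 j]
  simp only [Finset.mul_sum]
  symm
  rw [Finset.sum_comm]
  refine Finset.sum_congr rfl fun x _ => ?_
  rw [Finset.sum_comm]

lemma Phi_one (f u : Q N → ℝ) : Phi f u 1 = ∑ x, f x * u x := by
  unfold Phi
  refine Finset.sum_congr rfl fun x _ => ?_
  simp [K_one]

lemma Phi_zero (f u : Q N → ℝ) : Phi f u 0 = ∑ x, f x * ((∑ y, u y) / 2 ^ N) := by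
  unfold Phi
  refine Finset.sum_congr rfl fun x _ => ?_
  rw [Finset.sum_div, Finset.mul_sum]
  refine Finset.sum_congr rfl fun y _ => ?_
  rw [K_zero]
  ring

lemma T_cont (w : Q N → ℝ) (x : Q N) : Continuous fun r => T r w x := by
  unfold T K
  fun_prop

lemma T_le {r : ℝ} (h0 : 0 ≤ r) (h1 : r ≤ 1) {w : Q N → ℝ} {B : ℝ} (hw : ∀ y, |w y| ≤ B)
    (x : Q N) : |T r w x| ≤ B := by
  unfold T
  calc |∑ y, K r x y * w y| ≤ ∑ y, |K r x y * w y| := Finset.abs_sum_le_sum_abs _ _
    _ ≤ ∑ y, K r x y * B := by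
      refine Finset.sum_le_sum fun y _ => ?_
      rw [abs_mul, abs_of_nonneg (K_nonneg h0 h1 x y)]
      exact mul_le_mul_of_nonneg_left (hw y) (K_nonneg h0 h1 x y)
    _ = B := by rw [← Finset.sum_mul, K_sum, one_mul]

lemma dd_le {u : Q N → ℝ} {β : ℝ} (hu : Lip β u) (j : Fin N) (x : Q N) : |dd j u x| ≤ β / 2 := by
  rw [dd_eq, abs_div, abs_mul, sg_abs, one_mul, abs_two]
  have := hu x j
  linarith

lemma dd_lin (j l : Fin N) (c : ℝ) (y : Q N) :
    dd j (fun y : Q N => sg (y l) - c) y = if j = l then 1 else 0 := by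
  unfold dd
  by_cases h : j = l
  · subst h
    simp [sg]
  · rw [if_neg h]
    simp [Function.update_of_ne (Ne.symm h)]

/-- orthogonality -/
lemma orth (r : ℝ) (x : Q N) (j l : Fin N) :
    ∑ y, K r x y * (sg (y l) - r * sg (x l)) * (sg (y j) - r * sg (x j)) =
      if j = l then 1 - r ^ 2 else 0 := by
  rw [← T_dd' r j (fun y => sg (y l) - r * sg (x l)) x]
  unfold T
  simp only [dd_lin]
  by_cases h : j = l
  · simp [h, K_sum]
  · simp [h]

/-- Bessel in `l¹` -/
lemma bessel {r c : ℝ} (h0 : 0 ≤ r) (h1 : r ≤ 1) (hc : 0 ≤ c) (hrc : c ^ 2 = 1 - r ^ 2)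
    {w : Q N → ℝ} {β : ℝ} (hβ : 0 ≤ β) (hw : ∀ y, |w y| ≤ β) (x : Q N) :
    c * ∑ j, |T r (dd j w) x| ≤ β * Real.sqrt N := by
  obtain ⟨A, hA⟩ : ∃ A, A = ∑ j, |T r (dd j w) x| := ⟨_, rfl⟩
  rw [← hA]
  rcases hc.eq_or_lt with h | hc0
  · rw [← h, zero_mul]
    positivity
  rcases Nat.eq_zero_or_pos N with hN | hN
  · subst hN
    rw [hA]
    simp
  have hN' : (0 : ℝ) < N := by exact_mod_cast hN
  -- signs
  obtain ⟨e, he⟩ : ∃ e : Fin N → ℝ, ∀ j, e j * T r (dd j w) x = |T r (dd j w) x| ∧ e j ^ 2 = 1 := by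
    refine ⟨fun j => if 0 ≤ T r (dd j w) x then 1 else -1, fun j => ?_⟩
    by_cases h : 0 ≤ T r (dd j w) x
    · simp [h, abs_of_nonneg h]
    · simp [h, abs_of_neg (not_le.1 h)]
  obtain ⟨S, hS⟩ : ∃ S : Q N → ℝ, S = fun y => ∑ j, e j * (sg (y j) - r * sg (x j)) := ⟨_, rfl⟩
  have e1 : c ^ 2 * A = ∑ y, K r x y * w y * S y := by
    rw [hrc, hA, Finset.mul_sum]
    have : ∀ j, (1 - r ^ 2) * |T r (dd j w) x| =
        ∑ y, e j * (K r x y * w y * (sg (y j) - r * sg (x j))) := by
      intro j
      rw [← (he j).1, ← Finset.mul_sum, ← T_dd']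
      ring
    rw [Finset.sum_congr rfl fun j _ => this j, Finset.sum_comm]
    refine Finset.sum_congr rfl fun y _ => ?_
    rw [hS, Finset.mul_sum]
    refine Finset.sum_congr rfl fun j _ => ?_
    ring
  have e2 : ∑ y, K r x y * S y ^ 2 = c ^ 2 * N := by
    have : ∀ y, K r x y * S y ^ 2 = ∑ j, ∑ l, e j * e l *
        (K r x y * (sg (y l) - r * sg (x l)) * (sg (y j) - r * sg (x j))) := by
      intro y
      rw [hS]
      simp only [sq]
      rw [Finset.sum_mul_sum, Finset.mul_sum]
      refine Finset.sum_congr rfl fun j _ => ?_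
      rw [Finset.mul_sum]
      refine Finset.sum_congr rfl fun l _ => ?_
      ring
    rw [Finset.sum_congr rfl fun y _ => this y, Finset.sum_comm]
    have h3 : ∀ j : Fin N, ∑ y, ∑ l, e j * e l *
        (K r x y * (sg (y l) - r * sg (x l)) * (sg (y j) - r * sg (x j))) = c ^ 2 := by
      intro j
      rw [Finset.sum_comm]
      simp only [← Finset.mul_sum, orth]
      rw [Finset.sum_eq_single j]
      · rw [if_pos rfl, ← sq, (he j).2, hrc, one_mul]
      · intro l _ hl
        rw [if_neg (Ne.symm hl), mul_zero]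
      · intro h; exact absurd (mem_univ j) h
    rw [Finset.sum_congr rfl fun j _ => h3 j, Finset.sum_const, card_univ, Fintype.card_fin,
      nsmul_eq_mul]
    ring
  obtain ⟨B, hB⟩ : ∃ B, B = ∑ y, K r x y * |S y| := ⟨_, rfl⟩
  have e3 : c ^ 2 * A ≤ β * B := by
    rw [e1, hB, Finset.mul_sum]
    refine Finset.sum_le_sum fun y _ => ?_
    have h4 := K_nonneg h0 h1 x y
    have h5 : w y * S y ≤ β * |S y| := by
      calc w y * S y ≤ |w y * S y| := le_abs_self _
        _ = |w y| * |S y| := abs_mul _ _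
        _ ≤ β * |S y| := mul_le_mul_of_nonneg_right (hw y) (abs_nonneg _)
    nlinarith
  obtain ⟨lam, hlam⟩ : ∃ lam, lam = c * Real.sqrt N := ⟨_, rfl⟩
  have hlam0 : 0 < lam := by rw [hlam]; positivity
  have hlam2 : lam ^ 2 = c ^ 2 * N := by
    rw [hlam, mul_pow, Real.sq_sqrt hN'.le]
  have e4 : 2 * lam * B ≤ c ^ 2 * N + lam ^ 2 := by
    have : ∑ y, K r x y * (2 * lam * |S y|) ≤ ∑ y, K r x y * (S y ^ 2 + lam ^ 2) := by
      refine Finset.sum_le_sum fun y _ => ?_
      refine mul_le_mul_of_nonneg_left ?_ (K_nonneg h0 h1 x y)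
      have := sq_nonneg (|S y| - lam)
      have h6 := sq_abs (S y)
      nlinarith
    have h7 : ∑ y, K r x y * (2 * lam * |S y|) = 2 * lam * B := by
      rw [hB, Finset.mul_sum]
      refine Finset.sum_congr rfl fun y _ => ?_
      ring
    have h8 : ∑ y, K r x y * (S y ^ 2 + lam ^ 2) = c ^ 2 * N + lam ^ 2 := by
      simp only [mul_add, Finset.sum_add_distrib, e2, ← Finset.sum_mul, K_sum, one_mul]
    rw [h7, h8] at this
    exact this
  have e5 : B ≤ lam := by
    rw [← hlam2] at e4
    nlinarith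
  have e6 : c ^ 2 * A ≤ β * (c * Real.sqrt N) := by
    rw [← hlam]
    exact e3.trans (mul_le_mul_of_nonneg_left e5 hβ)
  have e7 : c * (c * A) ≤ c * (β * Real.sqrt N) := by
    calc c * (c * A) = c ^ 2 * A := by ring
      _ ≤ _ := e6
      _ = _ := by ring
  exact le_of_mul_le_mul_left e7 hc0

lemma T_fl (r : ℝ) (w : Q N → ℝ) (x : Q N) (i : Fin N) :
    T r w (fl x i) = T r (fun y => w (fl y i)) x := by
  unfold T
  rw [← sum_fl (fun y => K r (fl x i) y * w y) i]
  refine Finset.sum_congr rfl fun y _ => ?_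
  rw [K_fl]

lemma upd_fl (y : Q N) {i j : Fin N} (h : i ≠ j) (b : Bool) :
    fl (Function.update y j b) i = Function.update (fl y i) j b := by
  unfold fl
  rw [Function.update_of_ne h, Function.update_comm h]

lemma diff_le {u : Q N → ℝ} {r : ℝ} (x : Q N) (i j : Fin N) :
    |T r (dd j u) x - T r (dd j u) (fl x i)| ≤
      |T r (dd j (fun y => u y - u (fl y i))) x| := by
  by_cases h : i = j
  · subst h
    rw [T_dd_fl, sub_self, abs_zero]
    exact abs_nonneg _
  · apply le_of_eq
    congr 1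
    rw [T_fl]
    unfold T
    rw [← Finset.sum_sub_distrib]
    refine Finset.sum_congr rfl fun y _ => ?_
    unfold dd
    simp only [upd_fl y h]
    ring

end PC

open PC in
/-- Package C (the vector field). -/
theorem pkgC {N : ℕ} (u : Q N → ℝ) (β : ℝ) (hβ : 0 ≤ β) (hu : Lip β u) :
    ∃ F : Fin N → Q N → ℝ,
      (∀ f : Q N → ℝ, ∑ j, ∑ x, dd j f x * F j x
          = ∑ x, f x * (u x - (∑ y, u y) / 2 ^ N)) ∧
      (∀ j x, |F j x| ≤ β / 2) ∧
      (∀ x i, ∑ j, |F j x - F j (fl x i)| ≤ 2 * β * Real.sqrt N) := by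
  have hpi : 0 ≤ Real.pi / 2 := by positivity
  have hcont : ∀ j x, Continuous fun t : ℝ => Real.cos t * T (Real.sin t) (dd j u) x := by
    intro j x
    exact Real.continuous_cos.mul ((T_cont (dd j u) x).comp Real.continuous_sin)
  have hint : ∀ j x, IntervalIntegrable (fun t : ℝ => Real.cos t * T (Real.sin t) (dd j u) x)
      MeasureTheory.volume 0 (Real.pi / 2) := fun j x => (hcont j x).intervalIntegrable _ _
  refine ⟨fun j x => ∫ t in (0 : ℝ)..(Real.pi / 2), Real.cos t * T (Real.sin t) (dd j u) x,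
    ?_, ?_, ?_⟩
  · intro f
    have h1 : ∑ j, ∑ x, dd j f x *
        (∫ t in (0 : ℝ)..(Real.pi / 2), Real.cos t * T (Real.sin t) (dd j u) x) =
        ∫ t in (0 : ℝ)..(Real.pi / 2),
          (∑ j, ∑ x, dd j f x * T (Real.sin t) (dd j u) x) * Real.cos t := by
      simp only [← intervalIntegral.integral_const_mul]
      have h2 : ∀ j : Fin N, ∑ x, (∫ t in (0 : ℝ)..(Real.pi / 2),
          dd j f x * (Real.cos t * T (Real.sin t) (dd j u) x)) =
          ∫ t in (0 : ℝ)..(Real.pi / 2), ∑ x,
            dd j f x * (Real.cos t * T (Real.sin t) (dd j u) x) := by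
        intro j
        rw [intervalIntegral.integral_finsetSum]
        intro x _
        exact (hint j x).const_mul _
      rw [Finset.sum_congr rfl fun j _ => h2 j, ← intervalIntegral.integral_finsetSum]
      · apply intervalIntegral.integral_congr
        intro t _
        simp only []
        rw [Finset.sum_mul]
        refine Finset.sum_congr rfl fun j _ => ?_
        rw [Finset.sum_mul]
        refine Finset.sum_congr rfl fun x _ => ?_
        ring
      · intro j _
        refine Continuous.intervalIntegrable ?_ _ _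
        exact continuous_finsetSum _ fun x _ => continuous_const.mul (hcont j x)
    have h3 : ∀ t ∈ Set.uIcc (0 : ℝ) (Real.pi / 2), HasDerivAt (fun t => Phi f u (Real.sin t))
        ((∑ j, ∑ x, dd j f x * T (Real.sin t) (dd j u) x) * Real.cos t) t := by
      intro t _
      exact (Phi_deriv f u (Real.sin t)).comp t (Real.hasDerivAt_sin t)
    have h4 : Continuous fun t : ℝ =>
        (∑ j, ∑ x, dd j f x * T (Real.sin t) (dd j u) x) * Real.cos t := by
      refine Continuous.mul ?_ Real.continuous_cos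
      refine continuous_finsetSum _ fun j _ => continuous_finsetSum _ fun x _ => ?_
      exact continuous_const.mul ((T_cont (dd j u) x).comp Real.continuous_sin)
    rw [h1, intervalIntegral.integral_eq_sub_of_hasDerivAt h3 (h4.intervalIntegrable _ _),
      Real.sin_pi_div_two, Real.sin_zero, Phi_one, Phi_zero, ← Finset.sum_sub_distrib]
    refine Finset.sum_congr rfl fun x _ => ?_
    ring
  · intro j x
    have h1 : |∫ t in (0 : ℝ)..(Real.pi / 2), Real.cos t * T (Real.sin t) (dd j u) x| ≤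
        ∫ t in (0 : ℝ)..(Real.pi / 2), |Real.cos t * T (Real.sin t) (dd j u) x| :=
      intervalIntegral.abs_integral_le_integral_abs hpi
    have h2 : ∫ t in (0 : ℝ)..(Real.pi / 2), |Real.cos t * T (Real.sin t) (dd j u) x| ≤
        ∫ t in (0 : ℝ)..(Real.pi / 2), Real.cos t * (β / 2) := by
      refine intervalIntegral.integral_mono_on hpi ?_ ?_ fun t ht => ?_
      · exact (hcont j x).abs.intervalIntegrable _ _
      · exact (Real.continuous_cos.mul continuous_const).intervalIntegrable _ _
      · have hc : 0 ≤ Real.cos t := Real.cos_nonneg_of_mem_Icc ⟨by linarith [ht.1], ht.2⟩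
        have hs : 0 ≤ Real.sin t := Real.sin_nonneg_of_nonneg_of_le_pi ht.1
          (by linarith [ht.2, Real.pi_pos])
        rw [abs_mul, abs_of_nonneg hc]
        exact mul_le_mul_of_nonneg_left (T_le hs (Real.sin_le_one t) (fun y => dd_le hu j y) x) hc
    have h3 : ∫ t in (0 : ℝ)..(Real.pi / 2), Real.cos t * (β / 2) = β / 2 := by
      rw [intervalIntegral.integral_mul_const, integral_cos, Real.sin_pi_div_two, Real.sin_zero]
      ring
    linarith
  · intro x i
    have h1 : ∀ j, |(∫ t in (0 : ℝ)..(Real.pi / 2), Real.cos t * T (Real.sin t) (dd j u) x) -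
        ∫ t in (0 : ℝ)..(Real.pi / 2), Real.cos t * T (Real.sin t) (dd j u) (fl x i)| ≤
        ∫ t in (0 : ℝ)..(Real.pi / 2), |Real.cos t * T (Real.sin t) (dd j u) x -
          Real.cos t * T (Real.sin t) (dd j u) (fl x i)| := by
      intro j
      rw [← intervalIntegral.integral_sub (hint j x) (hint j (fl x i))]
      exact intervalIntegral.abs_integral_le_integral_abs hpi
    refine (Finset.sum_le_sum fun j _ => h1 j).trans ?_
    rw [← intervalIntegral.integral_finsetSum]
    · have h2 : ∫ t in (0 : ℝ)..(Real.pi / 2), ∑ j, |Real.cos t * T (Real.sin t) (dd j u) x -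
          Real.cos t * T (Real.sin t) (dd j u) (fl x i)| ≤
          ∫ t in (0 : ℝ)..(Real.pi / 2), β * Real.sqrt N := by
        refine intervalIntegral.integral_mono_on hpi ?_ ?_ fun t ht => ?_
        · refine Continuous.intervalIntegrable ?_ _ _
          exact continuous_finsetSum _ fun j _ => ((hcont j x).sub (hcont j (fl x i))).abs
        · exact continuous_const.intervalIntegrable _ _
        · have hc : 0 ≤ Real.cos t := Real.cos_nonneg_of_mem_Icc ⟨by linarith [ht.1], ht.2⟩
          have hs : 0 ≤ Real.sin t := Real.sin_nonneg_of_nonneg_of_le_pi ht.1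
            (by linarith [ht.2, Real.pi_pos])
          have h3 : ∀ j, |Real.cos t * T (Real.sin t) (dd j u) x -
              Real.cos t * T (Real.sin t) (dd j u) (fl x i)| ≤
              Real.cos t * |T (Real.sin t) (dd j (fun y => u y - u (fl y i))) x| := by
            intro j
            rw [← mul_sub, abs_mul, abs_of_nonneg hc]
            exact mul_le_mul_of_nonneg_left (diff_le x i j) hc
          refine (Finset.sum_le_sum fun j _ => h3 j).trans ?_
          rw [← Finset.mul_sum]
          refine bessel hs (Real.sin_le_one t) hc ?_ hβ (fun y => hu y i) x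
          rw [Real.cos_sq']
      refine h2.trans ?_
      rw [intervalIntegral.integral_const, sub_zero, smul_eq_mul]
      have h4 : 0 ≤ β * Real.sqrt N := by positivity
      have h5 := Real.pi_lt_four
      nlinarith
    · intro j _
      exact ((hcont j x).sub (hcont j (fl x i))).abs.intervalIntegrable _ _

end Pool.Agent.Helper79.ST
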