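import Mathlib
import Pool.Agent.Helper79.ST.Defs

/-!
# Package D1 (one random resampling step), helper34
-/

set_option autoImplicit false

namespace Pool.Agent.Helper79.ST

open Finset

namespace PD1

theorem sum_thr {M : ℕ} {t : ℝ} (h0 : 0 ≤ t) (h1 : t ≤ M) :
    ∃ κ : ℝ, t ≤ κ ∧ κ ≤ t + 1 ∧ ∀ A B : ℝ,
      ∑ m : Fin M, (if ((m : ℕ) : ℝ) < t then A else B) = κ * A + (M - κ) * B := by
  have hK : ⌈t⌉₊ ≤ M := Nat.ceil_le.2 h1
  refine ⟨(⌈t⌉₊ : ℝ), Nat.le_ceil t, (Nat.ceil_lt_add_one h0).le, fun A B => ?_⟩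
  have h2 : ∀ m : Fin M, (if ((m : ℕ) : ℝ) < t then A else B) =
      (fun i : ℕ => if i < ⌈t⌉₊ then A else B) (m : ℕ) := by
    intro m
    simp only [Nat.lt_ceil]
  rw [sum_congr rfl fun m _ => h2 m,
    Fin.sum_univ_eq_sum_range (fun i : ℕ => if i < ⌈t⌉₊ then A else B) M]
  obtain ⟨L, hL⟩ := Nat.exists_eq_add_of_le hK
  rw [hL, sum_range_add]
  have h3 : ∑ i ∈ range ⌈t⌉₊, (if i < ⌈t⌉₊ then A else B) = ∑ i ∈ range ⌈t⌉₊, A :=
    sum_congr rfl fun i hi => if_pos (mem_range.1 hi)
  have h4 : ∑ i ∈ range L, (if ⌈t⌉₊ + i < ⌈t⌉₊ then A else B) = ∑ i ∈ range L, B :=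
    sum_congr rfl fun i _ => if_neg (by omega)
  rw [h3, h4, sum_const, sum_const, card_range, card_range, nsmul_eq_mul, nsmul_eq_mul]
  push_cast
  ring

theorem sum_diff {M : ℕ} {t t' : ℝ} (h0 : 0 ≤ t) (h1 : t ≤ M) (h0' : 0 ≤ t') (h1' : t' ≤ M) :
    ∑ m : Fin M, (if decide (((m : ℕ) : ℝ) < t) = decide (((m : ℕ) : ℝ) < t') then (0 : ℝ) else 1)
      ≤ |t - t'| + 1 := by
  wlog h : t ≤ t' generalizing t t'
  · have h2 := this h0' h1' h0 h1 (le_of_not_ge h)
    rw [abs_sub_comm]
    refine le_trans (le_of_eq ?_) h2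
    exact sum_congr rfl fun m _ => by simp only [eq_comm]
  obtain ⟨κ, hκ1, hκ2, hκ⟩ := sum_thr h0 h1
  obtain ⟨κ', hκ1', hκ2', hκ'⟩ := sum_thr h0' h1'
  have h2 : ∀ m : Fin M,
      (if decide (((m : ℕ) : ℝ) < t) = decide (((m : ℕ) : ℝ) < t') then (0 : ℝ) else 1) =
      (if ((m : ℕ) : ℝ) < t' then 1 else 0) - (if ((m : ℕ) : ℝ) < t then 1 else 0) := by
    intro m
    by_cases h3 : ((m : ℕ) : ℝ) < t
    · have h4 : ((m : ℕ) : ℝ) < t' := lt_of_lt_of_le h3 h
      simp [h3, h4]
    · by_cases h4 : ((m : ℕ) : ℝ) < t'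
      · simp [h3, h4]
      · simp [h3, h4]
  rw [sum_congr rfl fun m _ => h2 m, sum_sub_distrib, hκ, hκ']
  rw [abs_of_nonpos (by linarith)]
  linarith

theorem hd_update {N : ℕ} (x x' : Q N) (j : Fin N) (u u' : Bool) :
    hd (Function.update x j u) (Function.update x' j u') ≤ hd x x' +
      (if u = u' then (0 : ℝ) else 1) := by
  unfold hd hammingDist
  split_ifs with h
  · rw [add_zero]
    norm_cast
    refine card_le_card fun i hi => ?_
    rw [mem_filter] at hi ⊢
    refine ⟨mem_univ _, ?_⟩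
    by_cases hij : i = j
    · subst hij
      simp [h] at hi
    · simpa [Function.update_of_ne hij] using hi.2
  · have h2 : (univ.filter fun i => Function.update x j u i ≠ Function.update x' j u' i) ⊆
        insert j (univ.filter fun i => x i ≠ x' i) := by
      intro i hi
      rw [mem_filter] at hi
      rw [mem_insert, mem_filter]
      by_cases hij : i = j
      · exact Or.inl hij
      · right
        exact ⟨mem_univ _, by simpa [Function.update_of_ne hij] using hi.2⟩
    have h3 := (card_le_card h2).trans (card_insert_le _ _)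
    exact_mod_cast h3

theorem dd_le {N : ℕ} {c : ℝ} {f : Q N → ℝ} (hf : Lip c f) (j : Fin N) (x : Q N) :
    |dd j f x| ≤ c / 2 := by
  have h := hf (Function.update x j true) j
  have h2 : fl (Function.update x j true) j = Function.update x j false := by
    unfold fl
    simp
  rw [h2] at h
  unfold dd
  rw [abs_div, abs_two]
  linarith

theorem f_eq {N : ℕ} (f : Q N → ℝ) (j : Fin N) (x : Q N) :
    f x = (f (Function.update x j true) + f (Function.update x j false)) / 2 +
      sg (x j) * dd j f x := by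
  unfold sg dd
  cases h : x j with
  | true =>
    have h2 : Function.update x j true = x := by
      rw [← h]; exact Function.update_eq_self j x
    rw [h2]
    simp
    ring
  | false =>
    have h2 : Function.update x j false = x := by
      rw [← h]; exact Function.update_eq_self j x
    rw [h2]
    simp
    ring

end PD1

open PD1

/-- Package D1 (one random resampling step). `α = Fin N × Fin M`; coordinate `a.1` is resampled with
bias `b a.1 x` by comparison with the threshold `a.2`. -/
theorem pkgD1 {N : ℕ} (hN : 0 < N) (M : ℕ) (hM : 0 < M) (b : Fin N → Q N → ℝ)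
    (hb : ∀ j x, |b j x| ≤ 1) :
    ∃ st : (Fin N × Fin M) → Q N → Q N,
      (∀ a, ∃ j, ∀ x k, k ≠ j → st a x k = x k) ∧
      (∀ (c : ℝ) (f : Q N → ℝ), 0 ≤ c → Lip c f → ∀ x,
        |(∑ a, f (st a x)) / ((N : ℝ) * M)
          - (f x + (∑ j, (b j x - sg (x j)) * dd j f x) / N)| ≤ c / M) ∧
      (∀ x x' : Q N, (∑ a, hd (st a x) (st a x')) / ((N : ℝ) * M)
          ≤ hd x x' + (∑ j, |b j x - b j x'|) / (2 * N) + 1 / M) := by
  have hN0 : (0 : ℝ) < N := by exact_mod_cast hN
  have hM0 : (0 : ℝ) < M := by exact_mod_cast hM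
  have ht0 : ∀ j x, 0 ≤ (M : ℝ) * (1 + b j x) / 2 := fun j x => by
    have := (abs_le.1 (hb j x)).1
    have := mul_nonneg hM0.le (by linarith : 0 ≤ 1 + b j x)
    linarith
  have ht1 : ∀ j x, (M : ℝ) * (1 + b j x) / 2 ≤ M := fun j x => by
    have := (abs_le.1 (hb j x)).2
    have := mul_le_mul_of_nonneg_left (by linarith : 1 + b j x ≤ 2) hM0.le
    linarith
  refine ⟨fun a x => Function.update x a.1
    (decide (((a.2 : ℕ) : ℝ) < M * (1 + b a.1 x) / 2)), ?_, ?_, ?_⟩
  · intro a
    exact ⟨a.1, fun x k hk => Function.update_of_ne hk _ _⟩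
  · intro c f hc hf x
    have h1 : ∑ a : Fin N × Fin M, f (Function.update x a.1
        (decide (((a.2 : ℕ) : ℝ) < M * (1 + b a.1 x) / 2))) =
        ∑ j, ∑ m : Fin M, f (Function.update x j
        (decide (((m : ℕ) : ℝ) < M * (1 + b j x) / 2))) := Fintype.sum_prod_type _
    have h2 : ∀ j, |(∑ m : Fin M, f (Function.update x j
        (decide (((m : ℕ) : ℝ) < M * (1 + b j x) / 2)))) -
        M * (f x + (b j x - sg (x j)) * dd j f x)| ≤ c := by
      intro j
      obtain ⟨κ, hκ1, hκ2, hκ⟩ := sum_thr (ht0 j x) (ht1 j x)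
      have h3 : ∑ m : Fin M, f (Function.update x j
          (decide (((m : ℕ) : ℝ) < M * (1 + b j x) / 2))) =
          κ * f (Function.update x j true) + (M - κ) * f (Function.update x j false) := by
        rw [← hκ]
        refine sum_congr rfl fun m _ => ?_
        split_ifs with h <;> simp [h]
      have h4 := f_eq f j x
      have h5 : κ * f (Function.update x j true) + (M - κ) * f (Function.update x j false) -
          M * (f x + (b j x - sg (x j)) * dd j f x) =
          2 * (κ - M * (1 + b j x) / 2) * dd j f x := by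
        rw [h4]
        unfold dd
        ring
      rw [h3, h5, abs_mul, abs_mul, abs_two, abs_of_nonneg (by linarith)]
      have h6 := dd_le hf j x
      have h7 : 2 * (κ - M * (1 + b j x) / 2) ≤ 2 := by linarith
      have h8 := mul_le_mul h7 h6 (abs_nonneg _) (by norm_num : (0 : ℝ) ≤ 2)
      linarith
    have h3 : (∑ a : Fin N × Fin M, f (Function.update x a.1
        (decide (((a.2 : ℕ) : ℝ) < M * (1 + b a.1 x) / 2)))) / ((N : ℝ) * M) -
        (f x + (∑ j, (b j x - sg (x j)) * dd j f x) / N) =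
        (∑ j, ((∑ m : Fin M, f (Function.update x j
        (decide (((m : ℕ) : ℝ) < M * (1 + b j x) / 2)))) -
        M * (f x + (b j x - sg (x j)) * dd j f x))) / ((N : ℝ) * M) := by
      rw [h1, sum_sub_distrib, ← mul_sum, sum_add_distrib, sum_const, card_univ, Fintype.card_fin,
        nsmul_eq_mul]
      generalize (∑ j, ∑ m : Fin M, f (Function.update x j
        (decide (((m : ℕ) : ℝ) < M * (1 + b j x) / 2)))) = A
      generalize (∑ j, (b j x - sg (x j)) * dd j f x) = B
      field_simp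
    rw [h3, abs_div, abs_of_pos (mul_pos hN0 hM0), div_le_div_iff₀ (mul_pos hN0 hM0) hM0]
    have h4 : |∑ j, ((∑ m : Fin M, f (Function.update x j
        (decide (((m : ℕ) : ℝ) < M * (1 + b j x) / 2)))) -
        M * (f x + (b j x - sg (x j)) * dd j f x))| ≤ N * c := by
      refine (abs_sum_le_sum_abs _ _).trans ((sum_le_sum fun j _ => h2 j).trans ?_)
      rw [sum_const, card_univ, Fintype.card_fin, nsmul_eq_mul]
    have := mul_le_mul_of_nonneg_right h4 hM0.le
    linarith
  · intro x x'
    have h1 : ∑ a : Fin N × Fin M, hd (Function.update x a.1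
        (decide (((a.2 : ℕ) : ℝ) < M * (1 + b a.1 x) / 2))) (Function.update x' a.1
        (decide (((a.2 : ℕ) : ℝ) < M * (1 + b a.1 x') / 2))) =
        ∑ j, ∑ m : Fin M, hd (Function.update x j
        (decide (((m : ℕ) : ℝ) < M * (1 + b j x) / 2))) (Function.update x' j
        (decide (((m : ℕ) : ℝ) < M * (1 + b j x') / 2))) := Fintype.sum_prod_type _
    have h2 : ∀ j, ∑ m : Fin M, hd (Function.update x j
        (decide (((m : ℕ) : ℝ) < M * (1 + b j x) / 2))) (Function.update x' j
        (decide (((m : ℕ) : ℝ) < M * (1 + b j x') / 2))) ≤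
        M * hd x x' + (M * |b j x - b j x'| / 2 + 1) := by
      intro j
      refine (sum_le_sum fun m _ => hd_update x x' j _ _).trans ?_
      rw [sum_add_distrib, sum_const, card_univ, Fintype.card_fin, nsmul_eq_mul]
      have h3 := sum_diff (ht0 j x) (ht1 j x) (ht0 j x') (ht1 j x')
      have h4 : (M : ℝ) * (1 + b j x) / 2 - M * (1 + b j x') / 2 =
          M / 2 * (b j x - b j x') := by ring
      rw [h4, abs_mul, abs_of_pos (by positivity : (0 : ℝ) < M / 2)] at h3
      have h5 : (M : ℝ) / 2 * |b j x - b j x'| = M * |b j x - b j x'| / 2 := by ring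
      rw [h5] at h3
      exact add_le_add le_rfl h3
    have h3 : ∑ j, (M * hd x x' + (M * |b j x - b j x'| / 2 + 1)) =
        N * (M * hd x x') + (M * (∑ j, |b j x - b j x'|) / 2 + N) := by
      rw [sum_add_distrib, sum_add_distrib, ← sum_div, ← mul_sum, ← mul_sum, sum_const, sum_const,
        card_univ, Fintype.card_fin, nsmul_eq_mul, nsmul_eq_mul, mul_one]
      ring
    rw [h1, div_le_iff₀ (mul_pos hN0 hM0)]
    have h4 : (hd x x' + (∑ j, |b j x - b j x'|) / (2 * N) + 1 / M) * ((N : ℝ) * M) =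
        N * (M * hd x x') + (M * (∑ j, |b j x - b j x'|) / 2 + N) := by
      generalize (∑ j, |b j x - b j x'|) = B
      field_simp
      ring
    rw [h4, ← h3]
    exact sum_le_sum fun j _ => h2 j

end Pool.Agent.Helper79.ST
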