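import Pool.Agent.Helper79.ST.Basic
import Pool.Agent.Helper79.ST.PkgD1

set_option autoImplicit false

namespace Pool.Agent.Helper79.ST

open Finset

/-- Properties of one random step with bias `b` and Lipschitz constant `B` of `∑ b`. -/
theorem D2_step {N : ℕ} (hN : 0 < N) (M : ℕ) (hM : 0 < M) (b : Fin N → Q N → ℝ)
    (hb : ∀ j x, |b j x| ≤ 1) (c : ℝ)
    (hB : ∀ x i, (∑ j, |b j x - b j (fl x i)|) / (2 * N) + 1 / M ≤ c) :
    ∃ st : (Fin N × Fin M) → Q N → Q N,
      (∀ a, ∃ j, ∀ x k, k ≠ j → st a x k = x k) ∧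
      (∀ f : Q N → ℝ, Lip 1 f → ∀ x,
        |(∑ a, f (st a x)) / ((N : ℝ) * M)
          - (f x + (∑ j, (b j x - sg (x j)) * dd j f x) / N)| ≤ 1 / M) ∧
      (∀ x x' : Q N, (∑ a, hd (st a x) (st a x')) / ((N : ℝ) * M) ≤ (1 + c) * hd x x') ∧
      (∀ f : Q N → ℝ, Lip 1 f → Lip (1 + c) (fun x => (∑ a, f (st a x)) / ((N : ℝ) * M))) := by
  obtain ⟨st, h1, h2, h3⟩ := pkgD1 hN M hM b hb
  have hN' : (0 : ℝ) < N := by exact_mod_cast hN
  have hM' : (0 : ℝ) < M := by exact_mod_cast hM
  have h4 : ∀ x x' : Q N, (∑ a, hd (st a x) (st a x')) / ((N : ℝ) * M) ≤ (1 + c) * hd x x' := by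
    intro x x'
    by_cases hxx : x = x'
    · subst hxx
      simp [hd_self]
    · have hd1 : 1 ≤ hd x x' := by
        unfold hd
        have : 0 < hammingDist x x' := hammingDist_pos.mpr hxx
        exact_mod_cast this
      have hB' : ∀ x i, (∑ j, |b j x - b j (fl x i)|) ≤ (c - 1 / M) * (2 * N) := by
        intro x i
        have := hB x i
        have h5 : (∑ j, |b j x - b j (fl x i)|) / (2 * N) ≤ c - 1 / M := by linarith
        rwa [div_le_iff₀ (by positivity)] at h5
      have h5 := path (fun x y => ∑ j, |b j x - b j y|) ((c - 1 / M) * (2 * N))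
        (fun x => by simp) hB' (fun x y z => by
          rw [← Finset.sum_add_distrib]
          exact Finset.sum_le_sum fun j _ => abs_sub_le _ _ _) x x'
      have h6 := h3 x x'
      have h7 : (∑ j, |b j x - b j x'|) / (2 * N) ≤ (c - 1 / M) * hd x x' := by
        rw [div_le_iff₀ (by positivity)]
        linarith
      have h8 : 1 / (M : ℝ) ≤ 1 / M * hd x x' := by
        have : 0 < 1 / (M : ℝ) := by positivity
        nlinarith
      nlinarith
  refine ⟨st, h1, ?_, h4, ?_⟩
  · intro f hf x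
    exact h2 1 f zero_le_one hf x
  · intro f hf x i
    simp only
    rw [← sub_div, ← Finset.sum_sub_distrib, abs_div, abs_of_pos (by positivity : 0 < (N : ℝ) * M)]
    have h5 := h4 x (fl x i)
    rw [hd_fl, mul_one] at h5
    refine le_trans ?_ h5
    apply div_le_div_of_nonneg_right _ (by positivity)
    refine (Finset.abs_sum_le_sum_abs _ _).trans (Finset.sum_le_sum fun a _ => ?_)
    have := hf.abs_le (st a x) (st a (fl x i))
    linarith

theorem D2_scale {N : ℕ} {c : ℝ} (hc : 0 < c) {f : Q N → ℝ} (hf : Lip c f) :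
    Lip 1 (fun x => f x / c) := by
  intro x i
  simp only
  rw [← sub_div, abs_div, abs_of_pos hc, div_le_one hc]
  exact hf x i

theorem D2_main {N : ℕ} (hN : 0 < N) (u : Q N → ℝ) (F : Fin N → Q N → ℝ) (δ β Λ : ℝ)
    (hδ : 0 < δ) (hδ1 : δ ≤ 1) (hβ : 0 ≤ β) (hΛ : 0 ≤ Λ)
    (hu : ∀ x, δ ≤ u x) (hm : ∑ x, u x = 2 ^ N) (hL : Lip β u)
    (hF : ∀ f : Q N → ℝ, ∑ j, ∑ x, dd j f x * F j x = ∑ x, f x * (u x - 1))
    (hF1 : ∀ j x, |F j x| ≤ β / 2)
    (hF2 : ∀ x i, ∑ j, |F j x - F j (fl x i)| ≤ Λ)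
    (R : ℕ) (hR0 : 0 < R) (hR : N * β / (2 * δ) ≤ R)
    {X : Type} [Fintype X] [Nonempty X] (e : X → Q N) (D0 : ℝ)
    (hD0 : ∀ f : Q N → ℝ, Lip 1 f →
      |(∑ x, f (e x)) / (Fintype.card X : ℝ) - (∑ y, f y) / 2 ^ N| ≤ D0) (c : ℝ)
    (hc : c = (1 + (Λ / δ + N * β ^ 2 / (2 * δ ^ 2)) / 2) / R) :
    ∀ r : ℕ, r ≤ R → ∃ (Ω : Type) (_ : Fintype Ω) (_ : Nonempty Ω) (ψ : Ω → X → Q N),
      (∀ f : Q N → ℝ, Lip 1 f →
        |(∑ ω, ∑ x, f (ψ ω x)) / ((Fintype.card Ω : ℝ) * Fintype.card X)
          - (∑ y, f y * (1 + (r / R : ℝ) * (u y - 1))) / 2 ^ N|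
          ≤ (1 + c) ^ r * (D0 + r * (β / 4 + 1 / R))) ∧
      (∀ x x' : X, (∑ ω, hd (ψ ω x) (ψ ω x')) / (Fintype.card Ω : ℝ)
          ≤ (1 + c) ^ r * hd (e x) (e x')) ∧
      (∀ ω, ∃ J : Finset (Fin N), J.card ≤ r ∧ ∀ x, ∀ j, j ∉ J → ψ ω x j = e x j) := by
  have hN' : (0 : ℝ) < N := by exact_mod_cast hN
  have hR' : (0 : ℝ) < R := by exact_mod_cast hR0
  have h2N : (0 : ℝ) < 2 ^ N := by positivity
  have hc0 : 0 ≤ c := by rw [hc]; positivity
  have hX : (0 : ℝ) < Fintype.card X := by exact_mod_cast Fintype.card_pos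
  intro r
  induction r with
  | zero =>
    intro _
    refine ⟨Unit, inferInstance, inferInstance, fun _ x => e x, ?_, ?_, ?_⟩
    · intro f hf
      simpa using hD0 f hf
    · intro x x'
      simp
    · intro ω
      exact ⟨∅, by simp, by simp⟩
  | succ r ih =>
    intro hr
    obtain ⟨Ω, i1, i2, ψ, h1, h2, h3⟩ := ih (by omega)
    have hΩ : (0 : ℝ) < Fintype.card Ω := by exact_mod_cast Fintype.card_pos
    have hrR : (r : ℝ) / R ≤ 1 := by
      rw [div_le_one hR']; exact_mod_cast (by omega : r ≤ R)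
    have hrR0 : 0 ≤ (r : ℝ) / R := by positivity
    set H : Q N → ℝ := fun y => 1 + (r / R : ℝ) * (u y - 1) with hH
    have hHδ : ∀ y, δ ≤ H y := by
      intro y
      have := hu y
      simp only [hH]
      have e1 : 1 + (r / R : ℝ) * (u y - 1) = (1 - r / R) * 1 + (r / R) * u y := by ring
      rw [e1]
      have e2 : (r / R : ℝ) * δ ≤ (r / R) * u y := mul_le_mul_of_nonneg_left this hrR0
      have e3 : (1 - (r : ℝ) / R) * δ ≤ (1 - r / R) * 1 :=
        mul_le_mul_of_nonneg_left hδ1 (by linarith)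
      linarith
    have hHpos : ∀ y, 0 < H y := fun y => hδ.trans_le (hHδ y)
    have hHsum : ∑ y, H y = 2 ^ N := by
      simp only [hH]
      rw [Finset.sum_add_distrib, ← Finset.mul_sum, Finset.sum_sub_distrib, hm]
      simp
    have hHL : Lip β H := by
      intro x i
      have h4 := hL x i
      have e1 : H x - H (fl x i) = (r / R : ℝ) * (u x - u (fl x i)) := by
        simp only [hH]; ring
      rw [e1, abs_mul, abs_of_nonneg hrR0]
      have := abs_nonneg (u x - u (fl x i))
      nlinarith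
    set b : Fin N → Q N → ℝ := fun j y => N / R * (F j y / H y) with hbdef
    have hb1 : ∀ j x, |b j x| ≤ 1 := by
      intro j x
      simp only [hbdef]
      rw [abs_mul, abs_div (F j x), abs_of_pos (hHpos x), abs_of_pos (by positivity : (0 : ℝ) < N / R)]
      have e1 : |F j x| / H x ≤ (β / 2) / δ :=
        div_le_div₀ (by positivity) (hF1 j x) hδ (hHδ x)
      have e2 : (N : ℝ) / R * (|F j x| / H x) ≤ N / R * ((β / 2) / δ) :=
        mul_le_mul_of_nonneg_left e1 (by positivity)
      refine e2.trans ?_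
      rw [div_le_iff₀ (by positivity)] at hR
      rw [div_mul_div_comm, div_le_one (by positivity)]
      linarith
    have hbL : ∀ x i, (∑ j, |b j x - b j (fl x i)|) / (2 * N) + 1 / R ≤ c := by
      intro x i
      have e1 : ∀ j, |b j x - b j (fl x i)|
          ≤ N / R * (|F j x - F j (fl x i)| / δ + (β / 2) * β / δ ^ 2) := by
        intro j
        simp only [hbdef]
        rw [← mul_sub, abs_mul, abs_of_pos (by positivity : (0 : ℝ) < N / R)]
        apply mul_le_mul_of_nonneg_left _ (by positivity)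
        set y := fl x i
        have hx := hHpos x
        have hy := hHpos y
        have e2 : F j x / H x - F j y / H y
            = (F j x - F j y) / H x + F j y * (H y - H x) / (H x * H y) := by
          field_simp
          ring
        rw [e2]
        refine (abs_add_le _ _).trans (add_le_add ?_ ?_)
        · rw [abs_div, abs_of_pos hx]
          exact div_le_div_of_nonneg_left (abs_nonneg _) hδ (hHδ x)
        · rw [abs_div, abs_of_pos (mul_pos hx hy), abs_mul]
          have e3 : |H y - H x| ≤ β := by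
            rw [abs_sub_comm]; exact hHL x i
          have e4 : δ ^ 2 ≤ H x * H y := by
            rw [sq]; exact mul_le_mul (hHδ x) (hHδ y) hδ.le hx.le
          exact div_le_div₀ (by positivity)
            (mul_le_mul (hF1 j y) e3 (abs_nonneg _) (by positivity)) (by positivity) e4
      have e2 : ∑ j, |b j x - b j (fl x i)|
          ≤ N / R * (Λ / δ + N * ((β / 2) * β / δ ^ 2)) := by
        refine (Finset.sum_le_sum fun j _ => e1 j).trans ?_
        rw [← Finset.mul_sum, Finset.sum_add_distrib, ← Finset.sum_div]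
        apply mul_le_mul_of_nonneg_left _ (by positivity)
        simp only [Finset.sum_const, Finset.card_univ, Fintype.card_fin, nsmul_eq_mul]
        have := div_le_div_of_nonneg_right (hF2 x i) hδ.le
        linarith
      have e3 : (∑ j, |b j x - b j (fl x i)|) / (2 * N)
          ≤ (N / R * (Λ / δ + N * ((β / 2) * β / δ ^ 2))) / (2 * N) :=
        div_le_div_of_nonneg_right e2 (by positivity)
      have e4 : (N / R * (Λ / δ + N * ((β / 2) * β / δ ^ 2))) / (2 * N) + 1 / R = c := by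
        rw [hc]
        field_simp
        ring
      linarith
    obtain ⟨st, s1, s2, s3, s4⟩ := D2_step hN R hR0 b hb1 c hbL
    refine ⟨Ω × (Fin N × Fin R), inferInstance, ?_, fun w x => st w.2 (ψ w.1 x), ?_, ?_, ?_⟩
    · have : Nonempty (Fin N) := ⟨⟨0, hN⟩⟩
      have : Nonempty (Fin R) := ⟨⟨0, hR0⟩⟩
      infer_instance
    · intro f hf
      set Ψ : Q N → ℝ := fun x => (∑ a, f (st a x)) / ((N : ℝ) * R) with hΨ
      have hΨL : Lip (1 + c) Ψ := s4 f hf
      have e1 : (∑ w : Ω × (Fin N × Fin R), ∑ x, f (st w.2 (ψ w.1 x)))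
            / ((Fintype.card (Ω × (Fin N × Fin R)) : ℝ) * Fintype.card X)
          = (∑ ω, ∑ x, Ψ (ψ ω x)) / ((Fintype.card Ω : ℝ) * Fintype.card X) := by
        rw [Fintype.sum_prod_type]
        have e2 : ∀ ω, ∑ a, ∑ x, f (st a (ψ ω x)) = (N * R) * ∑ x, Ψ (ψ ω x) := by
          intro ω
          rw [Finset.sum_comm, Finset.mul_sum]
          refine Finset.sum_congr rfl fun x _ => ?_
          simp only [hΨ]
          field_simp
        simp only [e2]
        rw [← Finset.mul_sum]
        simp only [Fintype.card_prod, Fintype.card_fin, Nat.cast_mul]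
        field_simp
      rw [e1]
      have e3 := h1 _ (D2_scale (by linarith : 0 < 1 + c) hΨL)
      have e4 : |(∑ ω, ∑ x, Ψ (ψ ω x)) / ((Fintype.card Ω : ℝ) * Fintype.card X)
          - (∑ y, Ψ y * H y) / 2 ^ N|
          ≤ (1 + c) * ((1 + c) ^ r * (D0 + r * (β / 4 + 1 / R))) := by
        have e5 : (∑ ω, ∑ x, Ψ (ψ ω x) / (1 + c)) / ((Fintype.card Ω : ℝ) * Fintype.card X)
            - (∑ y, Ψ y / (1 + c) * H y) / 2 ^ N
            = ((∑ ω, ∑ x, Ψ (ψ ω x)) / ((Fintype.card Ω : ℝ) * Fintype.card X)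
                - (∑ y, Ψ y * H y) / 2 ^ N) / (1 + c) := by
          simp only [← Finset.sum_div]
          have : ∑ y, Ψ y / (1 + c) * H y = (∑ y, Ψ y * H y) / (1 + c) := by
            rw [Finset.sum_div]
            exact Finset.sum_congr rfl fun y _ => by ring
          rw [this]
          ring
        rw [e5, abs_div, abs_of_pos (by linarith : 0 < 1 + c), div_le_iff₀ (by linarith)] at e3
        linarith
      have e5 : |(∑ y, Ψ y * H y) / 2 ^ N
          - (∑ y, f y * (1 + ((r + 1 : ℕ) / R : ℝ) * (u y - 1))) / 2 ^ N| ≤ β / 4 + 1 / R := by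
        -- the main computation
        set E1 : Q N → ℝ := fun y => f y + (∑ j, (b j y - sg (y j)) * dd j f y) / N with hE1
        have a1 : |∑ y, Ψ y * H y - ∑ y, E1 y * H y| ≤ 2 ^ N * (1 / R) := by
          rw [← Finset.sum_sub_distrib, ← hHsum, Finset.sum_mul]
          refine (Finset.abs_sum_le_sum_abs _ _).trans (Finset.sum_le_sum fun y _ => ?_)
          rw [← sub_mul, abs_mul, abs_of_pos (hHpos y), mul_comm]
          exact mul_le_mul_of_nonneg_left (s2 f hf y) (hHpos y).le
        have a2 : ∑ y, E1 y * H y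
            = ∑ y, f y * (1 + ((r + 1 : ℕ) / R : ℝ) * (u y - 1))
              - (∑ j, ∑ y, dd j H y * dd j f y) / N := by
          have b1 : ∑ y, E1 y * H y = ∑ y, f y * H y
              + (∑ j, ∑ y, H y * (b j y) * dd j f y) / N
              - (∑ j, ∑ y, H y * sg (y j) * dd j f y) / N := by
            rw [Finset.sum_comm (s := univ (α := Fin N)), Finset.sum_comm (s := univ (α := Fin N)),
              Finset.sum_div, Finset.sum_div, ← Finset.sum_add_distrib, ← Finset.sum_sub_distrib]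
            refine Finset.sum_congr rfl fun y _ => ?_
            simp only [hE1]
            rw [add_mul, add_sub_assoc, ← sub_div, ← Finset.sum_sub_distrib, div_mul_eq_mul_div,
              Finset.sum_mul]
            congr 2
            exact Finset.sum_congr rfl fun j _ => by ring
          have b2 : (∑ j, ∑ y, H y * (b j y) * dd j f y) / N
              = (∑ x, f x * (u x - 1)) / R := by
            rw [← hF f, div_eq_div_iff hN'.ne' hR'.ne', Finset.sum_mul, Finset.sum_mul]
            refine Finset.sum_congr rfl fun j _ => ?_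
            rw [Finset.sum_mul, Finset.sum_mul]
            refine Finset.sum_congr rfl fun y _ => ?_
            simp only [hbdef]
            have := (hHpos y).ne'
            field_simp
          have b3 : ∀ j, ∑ y, H y * sg (y j) * dd j f y = ∑ y, dd j H y * dd j f y :=
            fun j => sum_sg_mul H (dd j f) j (dd_fl f j)
          rw [b1, b2]
          simp only [b3]
          have b4 : ∑ y, f y * (1 + ((r + 1 : ℕ) / R : ℝ) * (u y - 1))
              = ∑ y, f y * H y + (∑ x, f x * (u x - 1)) / R := by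
            rw [Finset.sum_div, ← Finset.sum_add_distrib]
            refine Finset.sum_congr rfl fun y _ => ?_
            simp only [hH]
            push_cast
            ring
          rw [b4]
        have a3 : |(∑ j, ∑ y, dd j H y * dd j f y) / N| ≤ 2 ^ N * (β / 4) := by
          rw [abs_div, abs_of_pos hN', div_le_iff₀ hN']
          calc |∑ j, ∑ y, dd j H y * dd j f y| ≤ ∑ j, ∑ y, |dd j H y * dd j f y| :=
                (Finset.abs_sum_le_sum_abs _ _).trans
                  (Finset.sum_le_sum fun j _ => Finset.abs_sum_le_sum_abs _ _)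
            _ ≤ ∑ _j : Fin N, ∑ _y : Q N, (β / 2) * (1 / 2) := by
                refine Finset.sum_le_sum fun j _ => Finset.sum_le_sum fun x _ => ?_
                rw [abs_mul]
                exact mul_le_mul (dd_le hHL j x) (dd_le hf j x) (abs_nonneg _) (by positivity)
            _ = 2 ^ N * (β / 4) * N := by
                simp only [Finset.sum_const, Finset.card_univ, Fintype.card_fin, nsmul_eq_mul,
                  Fintype.card_pi, Fintype.card_bool, Finset.prod_const]
                push_cast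
                ring
        rw [← sub_div, abs_div, abs_of_pos h2N, div_le_iff₀ h2N]
        have a4 : ∑ y, Ψ y * H y - ∑ y, f y * (1 + ((r + 1 : ℕ) / R : ℝ) * (u y - 1))
            = (∑ y, Ψ y * H y - ∑ y, E1 y * H y)
              - (∑ j, ∑ y, dd j H y * dd j f y) / N := by
          rw [a2]; ring
        rw [a4]
        refine (abs_sub _ _).trans ?_
        linarith
      have e6 : 1 ≤ (1 + c) ^ (r + 1) := one_le_pow₀ (by linarith)
      have e7 : (0 : ℝ) ≤ β / 4 + 1 / R := by positivity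
      calc |(∑ ω, ∑ x, Ψ (ψ ω x)) / ((Fintype.card Ω : ℝ) * Fintype.card X)
            - (∑ y, f y * (1 + ((r + 1 : ℕ) / R : ℝ) * (u y - 1))) / 2 ^ N|
          ≤ |(∑ ω, ∑ x, Ψ (ψ ω x)) / ((Fintype.card Ω : ℝ) * Fintype.card X)
              - (∑ y, Ψ y * H y) / 2 ^ N|
            + |(∑ y, Ψ y * H y) / 2 ^ N
              - (∑ y, f y * (1 + ((r + 1 : ℕ) / R : ℝ) * (u y - 1))) / 2 ^ N| := abs_sub_le _ _ _
        _ ≤ (1 + c) * ((1 + c) ^ r * (D0 + r * (β / 4 + 1 / R))) + (β / 4 + 1 / R) :=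
            add_le_add e4 e5
        _ ≤ (1 + c) ^ (r + 1) * (D0 + ((r + 1 : ℕ) : ℝ) * (β / 4 + 1 / R)) := by
            push_cast
            have : (1 + c) * ((1 + c) ^ r * (D0 + r * (β / 4 + 1 / R)))
                = (1 + c) ^ (r + 1) * (D0 + r * (β / 4 + 1 / R)) := by ring
            rw [this]
            nlinarith
    · intro x x'
      have e1 : (∑ w : Ω × (Fin N × Fin R), hd (st w.2 (ψ w.1 x)) (st w.2 (ψ w.1 x')))
            / (Fintype.card (Ω × (Fin N × Fin R)) : ℝ)
          = (∑ ω, (∑ a, hd (st a (ψ ω x)) (st a (ψ ω x'))) / ((N : ℝ) * R))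
            / (Fintype.card Ω : ℝ) := by
        rw [Fintype.sum_prod_type, ← Finset.sum_div]
        simp only [Fintype.card_prod, Fintype.card_fin, Nat.cast_mul]
        field_simp
      rw [e1]
      have e2 : (∑ ω, (∑ a, hd (st a (ψ ω x)) (st a (ψ ω x'))) / ((N : ℝ) * R))
            / (Fintype.card Ω : ℝ)
          ≤ (∑ ω, (1 + c) * hd (ψ ω x) (ψ ω x')) / (Fintype.card Ω : ℝ) :=
        div_le_div_of_nonneg_right (Finset.sum_le_sum fun ω _ => s3 _ _) hΩ.le
      refine e2.trans ?_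
      rw [← Finset.mul_sum, mul_div_assoc, pow_succ, mul_comm ((1 + c) ^ r) (1 + c), mul_assoc]
      exact mul_le_mul_of_nonneg_left (h2 x x') (by linarith)
    · rintro ⟨ω, a⟩
      obtain ⟨J, hJ1, hJ2⟩ := h3 ω
      obtain ⟨j, hj⟩ := s1 a
      refine ⟨insert j J, (card_insert_le _ _).trans (by omega), fun x k hk => ?_⟩
      simp only [mem_insert, not_or] at hk
      simp only
      rw [hj _ _ hk.1, hJ2 x k hk.2]

/-- Package D2 (the random map; uses D1). -/
theorem pkgD2 {N : ℕ} (hN : 0 < N) (u : Q N → ℝ) (F : Fin N → Q N → ℝ) (δ β Λ : ℝ)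
    (hδ : 0 < δ) (hδ1 : δ ≤ 1) (hβ : 0 ≤ β) (hΛ : 0 ≤ Λ)
    (hu : ∀ x, δ ≤ u x) (hm : ∑ x, u x = 2 ^ N) (hL : Lip β u)
    (hF : ∀ f : Q N → ℝ, ∑ j, ∑ x, dd j f x * F j x = ∑ x, f x * (u x - 1))
    (hF1 : ∀ j x, |F j x| ≤ β / 2)
    (hF2 : ∀ x i, ∑ j, |F j x - F j (fl x i)| ≤ Λ)
    (R : ℕ) (hR0 : 0 < R) (hR : N * β / (2 * δ) ≤ R)
    {X : Type} [Fintype X] [Nonempty X] (e : X → Q N) (D0 : ℝ)
    (hD0 : ∀ f : Q N → ℝ, Lip 1 f →
      |(∑ x, f (e x)) / (Fintype.card X : ℝ) - (∑ y, f y) / 2 ^ N| ≤ D0) :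
    ∃ (Ω : Type) (_ : Fintype Ω) (_ : Nonempty Ω) (ψ : Ω → X → Q N),
      (∀ f : Q N → ℝ, Lip 1 f →
        |(∑ ω, ∑ x, f (ψ ω x)) / ((Fintype.card Ω : ℝ) * Fintype.card X)
          - (∑ y, f y * u y) / 2 ^ N|
          ≤ Real.exp (1 + (Λ / δ + N * β ^ 2 / (2 * δ ^ 2)) / 2) * (D0 + R * β / 4 + 1)) ∧
      (∀ x x' : X, (∑ ω, hd (ψ ω x) (ψ ω x')) / (Fintype.card Ω : ℝ)
          ≤ Real.exp (1 + (Λ / δ + N * β ^ 2 / (2 * δ ^ 2)) / 2) * hd (e x) (e x')) ∧
      (∀ ω, ∃ J : Finset (Fin N), J.card ≤ R ∧ ∀ x, ∀ j, j ∉ J → ψ ω x j = e x j) := by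
  have hR' : (0 : ℝ) < R := by exact_mod_cast hR0
  obtain ⟨Ω, i1, i2, ψ, h1, h2, h3⟩ := D2_main hN u F δ β Λ hδ hδ1 hβ hΛ hu hm hL hF hF1 hF2 R hR0
    hR e D0 hD0 _ rfl R le_rfl
  have hD00 : 0 ≤ D0 := (abs_nonneg _).trans (hD0 (fun _ => 0) (by intro x i; simp))
  set a : ℝ := 1 + (Λ / δ + N * β ^ 2 / (2 * δ ^ 2)) / 2 with ha
  have ha0 : 0 ≤ a := by rw [ha]; positivity
  have hpow : (1 + a / R) ^ R ≤ Real.exp a := by
    have h4 : 1 + a / R ≤ Real.exp (a / R) := by
      have := Real.add_one_le_exp (a / R); linarith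
    calc (1 + a / R) ^ R ≤ (Real.exp (a / R)) ^ R :=
          pow_le_pow_left₀ (by positivity) h4 R
      _ = Real.exp a := by
          rw [← Real.exp_nat_mul]
          congr 1
          field_simp
  refine ⟨Ω, i1, i2, ψ, ?_, ?_, h3⟩
  · intro f hf
    have h4 := h1 f hf
    have e1 : ∀ y, f y * (1 + ((R : ℝ) / R) * (u y - 1)) = f y * u y := by
      intro y
      rw [div_self hR'.ne']; ring
    simp only [e1] at h4
    refine h4.trans ?_
    have e2 : D0 + (R : ℝ) * (β / 4 + 1 / R) = D0 + R * β / 4 + 1 := by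
      field_simp
      ring
    rw [e2]
    exact mul_le_mul_of_nonneg_right hpow (by positivity)
  · intro x x'
    exact (h2 x x').trans (mul_le_mul_of_nonneg_right hpow (hd_nonneg _ _))

end Pool.Agent.Helper79.ST
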