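import Pool.Agent.Helper79.ST.Defs

/-! Package E (derandomisation). -/

set_option autoImplicit false

namespace Pool.Agent.Helper79.ST

open Finset

namespace PE

/-- flip all the coordinates in `S` -/
def flS {N : ℕ} (S : Finset (Fin N)) (y : Q N) : Q N := fun j => if j ∈ S then !(y j) else y j

theorem flS_empty {N : ℕ} (y : Q N) : flS ∅ y = y := by
  funext j; simp [flS]

theorem flS_insert {N : ℕ} (S : Finset (Fin N)) (j : Fin N) (hj : j ∉ S) (y : Q N) :
    flS (insert j S) y = fl (flS S y) j := by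
  funext i
  unfold flS fl
  by_cases h : i = j
  · subst h
    simp [hj]
  · simp [h]

theorem lip_flS {N : ℕ} {f : Q N → ℝ} (hf : Lip 1 f) (S : Finset (Fin N)) (y : Q N) :
    |f y - f (flS S y)| ≤ S.card := by
  induction S using Finset.induction_on with
  | empty => simp [flS_empty]
  | insert j S hj ih =>
    rw [flS_insert S j hj, card_insert_of_notMem hj]
    have h1 := hf (flS S y) j
    have h2 : f y - f (fl (flS S y) j) = (f y - f (flS S y)) + (f (flS S y) - f (fl (flS S y) j)) := by ring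
    rw [h2]
    push_cast
    exact (abs_add_le _ _).trans (add_le_add ih h1)

theorem flS_diff {N : ℕ} (x y : Q N) : flS (univ.filter fun j => x j ≠ y j) x = y := by
  funext j
  unfold flS
  by_cases h : x j = y j
  · simp [h]
  · simp only [mem_filter, mem_univ, true_and, ne_eq, h, not_false_eq_true, if_true]
    cases hx : x j <;> cases hy : y j <;> simp_all

theorem lip_all {N : ℕ} {f : Q N → ℝ} (hf : Lip 1 f) (x y : Q N) : |f x - f y| ≤ N := by
  have h := lip_flS hf (univ.filter fun j => x j ≠ y j) x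
  rw [flS_diff] at h
  refine h.trans ?_
  have : (univ.filter fun j => x j ≠ y j).card ≤ N := by
    simpa using card_le_univ (univ.filter fun j => x j ≠ y j)
  exact_mod_cast this

section resample

variable {A Ω : Type} [Fintype A] [DecidableEq A] [Fintype Ω]

theorem resample (a : A) (h : (A → Ω) → ℝ) :
    ∑ U : A → Ω, ∑ ω : Ω, h (Function.update U a ω) = (Fintype.card Ω : ℝ) * ∑ U : A → Ω, h U := by
  classical
  have e1 : ∑ U : A → Ω, ∑ ω : Ω, h (Function.update U a ω) =
      ∑ p : (A → Ω) × Ω, h (Function.update p.1 a p.2) := by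
    rw [← univ_product_univ, sum_product]
  let τ : (A → Ω) × Ω → (A → Ω) × Ω := fun p => (Function.update p.1 a p.2, p.1 a)
  have hτ : Function.Involutive τ := by
    rintro ⟨U, ω⟩
    simp [τ]
  have e2 : ∑ p : (A → Ω) × Ω, h (Function.update p.1 a p.2) = ∑ p : (A → Ω) × Ω, h p.1 := by
    rw [← Equiv.sum_comp hτ.toPerm (fun p : (A → Ω) × Ω => h p.1)]
    rfl
  rw [e1, e2, ← univ_product_univ, sum_product]
  simp [mul_sum]

theorem one_point (a : A) (φ : Ω → ℝ) :
    (Fintype.card Ω : ℝ) * ∑ U : A → Ω, φ (U a) = (Fintype.card (A → Ω) : ℝ) * ∑ ω, φ ω := by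
  rw [← resample a (fun U => φ (U a))]
  simp

theorem two_points {a b : A} (hab : a ≠ b) (φ χ : Ω → ℝ) (h0 : ∑ ω, φ ω = 0) :
    (Fintype.card Ω : ℝ) * ∑ U : A → Ω, φ (U a) * χ (U b) = 0 := by
  rw [← resample a (fun U => φ (U a) * χ (U b))]
  apply sum_eq_zero
  intro U _
  have : ∀ ω, (Function.update U a ω) b = U b := fun ω => Function.update_of_ne hab.symm _ _
  simp only [Function.update_self, this]
  rw [← sum_mul, h0, zero_mul]

/-- variance of a sum of independent centred terms -/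
theorem var_sum [Nonempty Ω] (g : A → Ω → ℝ) (h0 : ∀ a, ∑ ω, g a ω = 0) :
    (Fintype.card Ω : ℝ) * ∑ U : A → Ω, (∑ a, g a (U a)) ^ 2 =
      (Fintype.card (A → Ω) : ℝ) * ∑ a, ∑ ω, g a ω ^ 2 := by
  have e1 : ∀ U : A → Ω, (∑ a, g a (U a)) ^ 2 = ∑ a, ∑ b, g a (U a) * g b (U b) := by
    intro U
    rw [sq, sum_mul_sum]
  simp_rw [e1]
  rw [sum_comm, mul_sum, mul_sum]
  apply sum_congr rfl
  intro a _
  rw [sum_comm, mul_sum, Finset.sum_eq_single a]
  · have := one_point a (fun ω => g a ω ^ 2)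
    rw [← this]
    congr 1
    apply sum_congr rfl
    intro U _
    ring
  · intro b _ hb
    exact two_points hb.symm (g a) (g b) (h0 a)
  · intro h; exact absurd (mem_univ a) h

end resample

/-- centring does not increase the second moment -/
theorem centre_sq {Ω : Type} [Fintype Ω] [Nonempty Ω] (t : Ω → ℝ) :
    ∑ ω, (t ω - (∑ η, t η) / Fintype.card Ω) ^ 2 ≤ ∑ ω, t ω ^ 2 := by
  have hc : (0 : ℝ) < Fintype.card Ω := by exact_mod_cast Fintype.card_pos
  obtain ⟨m, hm⟩ : ∃ m : ℝ, m = (∑ η, t η) / Fintype.card Ω := ⟨_, rfl⟩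
  have hs : ∑ η, t η = m * Fintype.card Ω := by rw [hm]; field_simp
  rw [← hm]
  have : ∑ ω, (t ω - m) ^ 2 = ∑ ω, t ω ^ 2 - m ^ 2 * Fintype.card Ω := by
    have e : ∀ ω, (t ω - m) ^ 2 = t ω ^ 2 - 2 * m * t ω + m ^ 2 := fun ω => by ring
    simp_rw [e]
    rw [sum_add_distrib, sum_sub_distrib, ← mul_sum, hs]
    simp
    ring
  rw [this]
  nlinarith [sq_nonneg m]

/-- the first `k` coordinates of the big cube -/
def K0 (n k : ℕ) : Finset (Fin (n + 1)) := univ.filter fun j => (j : ℕ) < k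

theorem card_lt {N k : ℕ} (hk : k ≤ N) : (univ.filter fun j : Fin N => (j : ℕ) < k).card = k := by
  have : (univ.filter fun j : Fin N => (j : ℕ) < k) = (univ : Finset (Fin k)).map (Fin.castLEEmb hk) := by
    ext j
    simp only [mem_filter, mem_univ, true_and, mem_map, Fin.castLEEmb_apply]
    constructor
    · intro h
      exact ⟨⟨j, h⟩, by ext; simp⟩
    · rintro ⟨i, rfl⟩
      simp
  rw [this, card_map, card_univ, Fintype.card_fin]

theorem card_K0 {n k : ℕ} (hk : k ≤ n) : (K0 n k).card = k := card_lt (by omega)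

/-- the sets of `q` of the first `k` coordinates -/
def PS (n k q : ℕ) : Finset (Finset (Fin (n + 1))) := (K0 n k).powersetCard q

theorem card_PS {n k : ℕ} (hk : k ≤ n) (q : ℕ) : (PS n k q).card = k.choose q := by
  unfold PS
  rw [card_powersetCard, card_K0 hk]

/-- restriction to the first `k` coordinates -/
def res {n k : ℕ} (hk : k ≤ n) (x : Q n) : Fin k → Bool := fun i => x (Fin.castLE hk i)

/-- number of pairs `(x, S)` with `flS S (y x) = z` -/
noncomputable def cnt {n : ℕ} (k q : ℕ) (y : Q n → Q (n + 1)) (z : Q (n + 1)) : ℝ :=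
  ∑ x, ∑ S ∈ PS n k q, if flS S (y x) = z then (1 : ℝ) else 0

/-- the same with `x` in a fibre of the restriction -/
noncomputable def T {n k : ℕ} (hk : k ≤ n) (q : ℕ) (y : Q n → Q (n + 1)) (α : Fin k → Bool)
    (z : Q (n + 1)) : ℝ :=
  ∑ x ∈ univ.filter (fun x => res hk x = α), ∑ S ∈ PS n k q, if flS S (y x) = z then (1 : ℝ) else 0

theorem T_nonneg {n k : ℕ} (hk : k ≤ n) (q : ℕ) (y : Q n → Q (n + 1)) (α : Fin k → Bool)
    (z : Q (n + 1)) : 0 ≤ T hk q y α z := by
  unfold T
  apply sum_nonneg; intro x _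
  apply sum_nonneg; intro S _
  split_ifs <;> norm_num

theorem cnt_mix {n k : ℕ} (hk : k ≤ n) (q : ℕ) (y : (Fin k → Bool) → Q n → Q (n + 1)) (z : Q (n + 1)) :
    cnt k q (fun x => y (res hk x) x) z = ∑ α, T hk q (y α) α z := by
  unfold cnt T
  rw [← sum_fiberwise_of_maps_to (s := univ) (t := (univ : Finset (Fin k → Bool))) (g := res hk)
    (fun x _ => mem_univ _)]
  apply sum_congr rfl
  intro α _
  apply sum_congr rfl
  intro x hx
  have h := (mem_filter.1 hx).2
  simp only [h]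

theorem T_le {n k : ℕ} (hk : k ≤ n) (q R : ℕ) (y : Q n → Q (n + 1))
    (hJ : ∃ J : Finset (Fin (n + 1)), J.card ≤ R ∧ ∀ x, ∀ j, j ∉ J → y x j = emb x j)
    (α : Fin k → Bool) (z : Q (n + 1)) : T hk q y α z ≤ 2 ^ R := by
  classical
  obtain ⟨J, hJc, hJ⟩ := hJ
  have e1 : T hk q y α z = ((((univ.filter (fun x => res hk x = α)) ×ˢ PS n k q).filter
      (fun p => flS p.2 (y p.1) = z)).card : ℝ) := by
    unfold T
    rw [← sum_product', card_filter]
    push_cast
    rfl
  have e2 : (((univ.filter (fun x => res hk x = α)) ×ˢ PS n k q).filter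
      (fun p => flS p.2 (y p.1) = z)).card ≤ J.powerset.card := by
    refine card_le_card_of_injOn (fun p => J.filter (fun j => emb p.1 j = true)) ?_ ?_
    · intro p _
      simp only [coe_powerset, Set.mem_preimage, Set.mem_powerset_iff, coe_subset]
      exact filter_subset _ _
    · rintro ⟨x, S⟩ hp ⟨x', S'⟩ hp' he
      simp only [coe_filter, mem_product, mem_filter, mem_univ, true_and, Set.mem_ofPred_eq] at hp hp'
      obtain ⟨⟨hx, hS⟩, hz⟩ := hp
      obtain ⟨⟨hx', hS'⟩, hz'⟩ := hp'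
      simp only at he hx hx' hS hS' hz hz'
      have hsub : ∀ T ∈ PS n k q, ∀ j : Fin (n + 1), k ≤ (j : ℕ) → j ∉ T := by
        intro T hT j hj hjT
        have := (mem_powersetCard.1 hT).1 hjT
        unfold K0 at this
        have := (mem_filter.1 this).2
        omega
      have hxx : x = x' := by
        funext j
        rcases lt_or_ge (j : ℕ) k with hj | hj
        · have h1 := congrFun hx ⟨j, hj⟩
          have h2 := congrFun hx' ⟨j, hj⟩
          have h3 : Fin.castLE hk ⟨(j : ℕ), hj⟩ = j := by ext; simp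
          unfold res at h1 h2
          rw [h3] at h1 h2
          rw [h1, h2]
        · have hemb : ∀ w : Q n, emb w j.castSucc = w j := by
            intro w
            unfold emb
            simp
          by_cases hjJ : j.castSucc ∈ J
          · have h1 : (j.castSucc ∈ J.filter (fun j => emb x j = true)) ↔
                (j.castSucc ∈ J.filter (fun j => emb x' j = true)) := by rw [he]
            simp only [mem_filter, hjJ, true_and, hemb] at h1
            cases h4 : x j <;> cases h5 : x' j <;> simp_all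
          · have hjk : k ≤ ((j.castSucc : Fin (n + 1)) : ℕ) := by simpa using hj
            have h1 := congrFun hz j.castSucc
            have h2 := congrFun hz' j.castSucc
            unfold flS at h1 h2
            rw [if_neg (hsub S hS _ hjk), hJ x _ hjJ, hemb] at h1
            rw [if_neg (hsub S' hS' _ hjk), hJ x' _ hjJ, hemb] at h2
            rw [h1, h2]
      subst hxx
      have hSS : S = S' := by
        ext j
        have h1 := congrFun hz j
        have h2 := congrFun hz' j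
        unfold flS at h1 h2
        by_cases hj : j ∈ S <;> by_cases hj' : j ∈ S' <;> simp_all
      rw [hSS]
  rw [e1]
  rw [card_powerset] at e2
  have e3 : (2 : ℕ) ^ J.card ≤ 2 ^ R := Nat.pow_le_pow_right (by norm_num) hJc
  exact_mod_cast e2.trans e3

theorem sum_cnt {n k : ℕ} (hk : k ≤ n) (q : ℕ) (y : Q n → Q (n + 1)) :
    ∑ z, cnt k q y z = 2 ^ n * (k.choose q : ℝ) := by
  unfold cnt
  rw [sum_comm]
  have e : ∀ x : Q n, ∑ z, ∑ S ∈ PS n k q, (if flS S (y x) = z then (1 : ℝ) else 0) = k.choose q := by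
    intro x
    rw [sum_comm]
    simp only [sum_ite_eq, mem_univ, if_true, sum_const, nsmul_eq_mul, mul_one]
    rw [card_PS hk]
  simp_rw [e]
  simp

theorem sum_f_cnt {n : ℕ} (k q : ℕ) (y : Q n → Q (n + 1)) (f : Q (n + 1) → ℝ) :
    ∑ z, f z * cnt k q y z = ∑ x, ∑ S ∈ PS n k q, f (flS S (y x)) := by
  unfold cnt
  simp_rw [mul_sum]
  rw [sum_comm]
  apply sum_congr rfl
  intro x _
  rw [sum_comm]
  apply sum_congr rfl
  intro S _
  simp [mul_ite]

theorem smooth {n k : ℕ} (hk : k ≤ n) (q : ℕ) (y : Q n → Q (n + 1)) {f : Q (n + 1) → ℝ} (hf : Lip 1 f) :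
    |(k.choose q : ℝ) * ∑ x, f (y x) - ∑ z, f z * cnt k q y z| ≤ 2 ^ n * ((k.choose q : ℝ) * q) := by
  rw [sum_f_cnt]
  have e1 : (k.choose q : ℝ) * ∑ x, f (y x) = ∑ x, ∑ S ∈ PS n k q, f (y x) := by
    simp only [sum_const, nsmul_eq_mul]
    rw [card_PS hk, mul_sum]
  rw [e1, ← sum_sub_distrib]
  refine (abs_sum_le_sum_abs _ _).trans ?_
  have e2 : ∀ x : Q n, |∑ S ∈ PS n k q, f (y x) - ∑ S ∈ PS n k q, f (flS S (y x))| ≤ (k.choose q : ℝ) * q := by
    intro x
    rw [← sum_sub_distrib]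
    refine (abs_sum_le_sum_abs _ _).trans ?_
    have : ∀ S ∈ PS n k q, |f (y x) - f (flS S (y x))| ≤ q := by
      intro S hS
      have h1 := lip_flS hf S (y x)
      rw [(mem_powersetCard.1 hS).2] at h1
      exact h1
    refine (sum_le_sum this).trans ?_
    rw [sum_const, card_PS hk, nsmul_eq_mul]
  refine (sum_le_sum fun x _ => e2 x).trans ?_
  simp

theorem hd_emb_le {n R : ℕ} (y : Q n → Q (n + 1))
    (hJ : ∃ J : Finset (Fin (n + 1)), J.card ≤ R ∧ ∀ x, ∀ j, j ∉ J → y x j = emb x j) (x : Q n) :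
    hammingDist (y x) (emb x) ≤ R := by
  obtain ⟨J, hJc, hJ⟩ := hJ
  refine le_trans ?_ hJc
  unfold hammingDist
  apply card_le_card
  intro j hj
  by_contra h
  exact (mem_filter.1 hj).2 (hJ x j h)

theorem hd_emb_fl {n : ℕ} (x : Q n) (i : Fin n) : hammingDist (emb x) (emb (fl x i)) ≤ 1 := by
  unfold hammingDist
  rw [card_le_one_iff_subset_singleton]
  refine ⟨i.castSucc, fun j hj => ?_⟩
  rw [mem_singleton]
  by_contra h
  apply (mem_filter.1 hj).2
  unfold emb fl
  refine Fin.lastCases ?_ (fun m => ?_) j (motive := fun j => j ≠ i.castSucc →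
    (Fin.snoc (α := fun _ => Bool) x true : Q (n + 1)) j =
      (Fin.snoc (α := fun _ => Bool) (Function.update x i (!x i)) true : Q (n + 1)) j) h
  · intro _; simp
  · intro hm
    have : m ≠ i := fun h => hm (by rw [h])
    simp [Function.update_of_ne this]

end PE

open PE

/-- Package E (derandomisation). -/
theorem pkgE {n : ℕ} (hn : 0 < n) (Ω : Type) [Fintype Ω] [Nonempty Ω]
    (ψ : Ω → Q n → Q (n + 1)) (R : ℕ)
    (hJ : ∀ ω, ∃ J : Finset (Fin (n + 1)), J.card ≤ R ∧ ∀ x, ∀ j, j ∉ J → ψ ω x j = emb x j)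
    (s : ℝ)
    (hs : ∀ x i, (∑ ω, hd (ψ ω x) (ψ ω (fl x i))) / (Fintype.card Ω : ℝ) ≤ s)
    (k q : ℕ) (hk : k ≤ n) (hq : q ≤ k) :
    ∃ (G : Q n → Q (n + 1)) (w : ℝ),
      (∀ f : Q (n + 1) → ℝ, Lip 1 f →
        |(∑ x, f (G x)) / 2 ^ n - (∑ ω, ∑ x, f (ψ ω x)) / ((Fintype.card Ω : ℝ) * 2 ^ n)| ≤ w) ∧
      (∑ x, ∑ i, hd (G x) (G (fl x i))) / (n * 2 ^ n) + 2 * w
        ≤ s + (k : ℝ) / n * (2 * R + 1)
          + 2 * (2 * q + (n + 1) * Real.sqrt (2 * 2 ^ R / (k.choose q : ℝ))) := by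
  classical
  have hc : (0 : ℝ) < Fintype.card Ω := by exact_mod_cast Fintype.card_pos
  obtain ⟨c, hcd⟩ : ∃ c : ℝ, c = Fintype.card Ω := ⟨_, rfl⟩
  have hC0 : 0 < k.choose q := Nat.choose_pos hq
  obtain ⟨C, hCd⟩ : ∃ C : ℝ, C = (k.choose q : ℝ) := ⟨_, rfl⟩
  have hC : 0 < C := by rw [hCd]; exact_mod_cast hC0
  have hn' : (0 : ℝ) < n := by exact_mod_cast hn
  have h2n : (0 : ℝ) < 2 ^ n := by positivity
  have hM0 : (0 : ℝ) < Fintype.card ((Fin k → Bool) → Ω) := by exact_mod_cast Fintype.card_pos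
  obtain ⟨M, hMd⟩ : ∃ M : ℝ, M = Fintype.card ((Fin k → Bool) → Ω) := ⟨_, rfl⟩
  rw [← hcd] at hc
  rw [← hMd] at hM0
  -- the map
  let G : ((Fin k → Bool) → Ω) → Q n → Q (n + 1) := fun U x => ψ (U (res hk x)) x
  -- the averaged count
  let av : Q (n + 1) → ℝ := fun z => (∑ ω, cnt k q (ψ ω) z) / c
  let D : ((Fin k → Bool) → Ω) → Q (n + 1) → ℝ := fun U z => cnt k q (G U) z - av z
  let L : ((Fin k → Bool) → Ω) → ℝ := fun U => ∑ z, |D U z|
  let g : Q (n + 1) → (Fin k → Bool) → Ω → ℝ := fun z α ω => T hk q (ψ ω) α z - (∑ η, T hk q (ψ η) α z) / c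
  have hg0 : ∀ z α, ∑ ω, g z α ω = 0 := by
    intro z α
    simp only [g, sum_sub_distrib, sum_const, card_univ, nsmul_eq_mul]
    rw [← hcd]
    field_simp
    ring
  have hD : ∀ U z, D U z = ∑ α, g z α (U α) := by
    intro U z
    have h1 : cnt k q (G U) z = ∑ α, T hk q (ψ (U α)) α z := cnt_mix hk q (fun α => ψ (U α)) z
    have h2 : ∀ ω, cnt k q (ψ ω) z = ∑ α, T hk q (ψ ω) α z := fun ω => cnt_mix hk q (fun _ => ψ ω) z
    simp only [D, g, av]
    rw [h1, sum_sub_distrib, ← sum_div]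
    simp_rw [h2]
    rw [sum_comm]
  have hvar : ∀ z, ∑ U, D U z ^ 2 ≤ M * (2 ^ R * av z) := by
    intro z
    have h1 := var_sum (g z) (hg0 z)
    rw [← hcd, ← hMd] at h1
    have h2 : ∑ α, ∑ ω, g z α ω ^ 2 ≤ 2 ^ R * (∑ ω, cnt k q (ψ ω) z) := by
      have h3 : ∀ α, ∑ ω, g z α ω ^ 2 ≤ ∑ ω, 2 ^ R * T hk q (ψ ω) α z := by
        intro α
        have h4 := centre_sq (fun ω => T hk q (ψ ω) α z)
        rw [← hcd] at h4
        refine h4.trans (sum_le_sum fun ω _ => ?_)
        rw [sq]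
        exact mul_le_mul_of_nonneg_right (T_le hk q R (ψ ω) (hJ ω) α z) (T_nonneg hk q (ψ ω) α z)
      refine (sum_le_sum fun α _ => h3 α).trans (le_of_eq ?_)
      rw [sum_comm, mul_sum]
      apply sum_congr rfl
      intro ω _
      rw [cnt_mix hk q (fun _ => ψ ω) z, mul_sum]
    have h5 : c * ∑ U, D U z ^ 2 ≤ c * (M * (2 ^ R * av z)) := by
      have e : ∀ U, D U z ^ 2 = (∑ α, g z α (U α)) ^ 2 := fun U => by rw [hD]
      simp_rw [e]
      rw [h1]
      have e2 : c * (M * (2 ^ R * av z)) = M * (2 ^ R * (∑ ω, cnt k q (ψ ω) z)) := by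
        simp only [av]
        field_simp
      rw [e2]
      exact mul_le_mul_of_nonneg_left h2 hM0.le
    exact le_of_mul_le_mul_left h5 hc
  have hav : ∑ z, av z = 2 ^ n * C := by
    simp only [av]
    rw [← sum_div, sum_comm]
    simp_rw [sum_cnt hk q]
    rw [sum_const, card_univ, nsmul_eq_mul, ← hcd, ← hCd]
    field_simp
  have hsq : (∑ U, L U) ^ 2 ≤ (M * (2 ^ n * Real.sqrt (2 * 2 ^ R * C))) ^ 2 := by
    have h1 : ∑ U, L U = ∑ p : ((Fin k → Bool) → Ω) × Q (n + 1), |D p.1 p.2| := by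
      rw [← univ_product_univ, sum_product]
    have h2 : ∑ p : ((Fin k → Bool) → Ω) × Q (n + 1), |D p.1 p.2| ^ 2 ≤ M * (2 ^ R * (2 ^ n * C)) := by
      rw [← univ_product_univ, sum_product, sum_comm]
      simp_rw [sq_abs]
      refine (sum_le_sum fun z _ => hvar z).trans (le_of_eq ?_)
      rw [← mul_sum, ← mul_sum, hav]
    have h3 := sq_sum_le_card_mul_sum_sq (s := (univ : Finset (((Fin k → Bool) → Ω) × Q (n + 1))))
      (f := fun p => |D p.1 p.2|)
    rw [← h1] at h3
    have h4 : ((univ : Finset (((Fin k → Bool) → Ω) × Q (n + 1))).card : ℝ) = M * 2 ^ (n + 1) := by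
      rw [card_univ, Fintype.card_prod]
      push_cast
      rw [← hMd]
      simp
    rw [h4] at h3
    refine h3.trans ?_
    have h5 : M * 2 ^ (n + 1) * ∑ p : ((Fin k → Bool) → Ω) × Q (n + 1), |D p.1 p.2| ^ 2 ≤
        M * 2 ^ (n + 1) * (M * (2 ^ R * (2 ^ n * C))) := mul_le_mul_of_nonneg_left h2 (by positivity)
    refine h5.trans (le_of_eq ?_)
    rw [mul_pow, mul_pow, Real.sq_sqrt (by positivity)]
    ring
  have hL0 : ∀ U, 0 ≤ L U := fun U => sum_nonneg fun z _ => abs_nonneg _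
  have hLsum : ∑ U, L U ≤ M * (2 ^ n * Real.sqrt (2 * 2 ^ R * C)) :=
    (pow_le_pow_iff_left₀ (sum_nonneg fun U _ => hL0 U) (by positivity) two_ne_zero).1 hsq
  -- test functions
  obtain ⟨z0⟩ : Nonempty (Q (n + 1)) := inferInstance
  have hDsum : ∀ U, ∑ z, D U z = 0 := by
    intro U
    simp only [D]
    rw [sum_sub_distrib, sum_cnt hk q, hav, hCd]
    ring
  have hfb : ∀ U, ∀ f : Q (n + 1) → ℝ, Lip 1 f →
      |(∑ x, f (G U x)) / 2 ^ n - (∑ ω, ∑ x, f (ψ ω x)) / (c * 2 ^ n)| ≤
        2 * q + (n + 1) * L U / (C * 2 ^ n) := by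
    intro U f hf
    obtain ⟨X, hX⟩ : ∃ X, X = ∑ x, f (G U x) := ⟨_, rfl⟩
    obtain ⟨Y, hY⟩ : ∃ Y, Y = ∑ ω, ∑ x, f (ψ ω x) := ⟨_, rfl⟩
    obtain ⟨P, hP⟩ : ∃ P, P = ∑ z, f z * cnt k q (G U) z := ⟨_, rfl⟩
    obtain ⟨S, hS⟩ : ∃ S, S = ∑ ω, ∑ z, f z * cnt k q (ψ ω) z := ⟨_, rfl⟩
    have h1 : |C * X - P| ≤ 2 ^ n * (C * q) := by
      rw [hX, hP, hCd]; exact smooth hk q (G U) hf
    have h2 : |C * Y - S| ≤ c * (2 ^ n * (C * q)) := by
      rw [hY, hS, mul_sum, ← sum_sub_distrib]
      refine (abs_sum_le_sum_abs _ _).trans ?_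
      refine (sum_le_sum fun ω _ => ?_ : _ ≤ ∑ _ω : Ω, 2 ^ n * (C * q)).trans (le_of_eq ?_)
      · rw [hCd]; exact smooth hk q (ψ ω) hf
      · rw [sum_const, card_univ, nsmul_eq_mul, ← hcd]
    have h3 : P - S / c = ∑ z, (f z - f z0) * D U z := by
      have e1 : ∑ z, (f z - f z0) * D U z = ∑ z, f z * D U z := by
        simp_rw [sub_mul]
        rw [sum_sub_distrib, ← mul_sum, hDsum, mul_zero, sub_zero]
      rw [e1, hP, hS, sum_comm, sum_div, ← sum_sub_distrib]
      apply sum_congr rfl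
      intro z _
      simp only [D, av]
      rw [← mul_sum]
      ring
    have h4 : |P - S / c| ≤ (n + 1) * L U := by
      rw [h3]
      refine (abs_sum_le_sum_abs _ _).trans ?_
      rw [show (n + 1) * L U = ∑ z, ((n : ℝ) + 1) * |D U z| by rw [← mul_sum]]
      apply sum_le_sum
      intro z _
      rw [abs_mul]
      apply mul_le_mul_of_nonneg_right _ (abs_nonneg _)
      have := lip_all hf z z0
      push_cast at this
      exact this
    rw [← hX, ← hY]
    have h5 : |(C * Y - S) / c| ≤ 2 ^ n * (C * q) := by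
      rw [abs_div, abs_of_pos hc, div_le_iff₀ hc]
      linarith
    have h6 : |C * (X - Y / c)| ≤ 2 * (2 ^ n * (C * q)) + (n + 1) * L U := by
      have e : C * (X - Y / c) = (C * X - P) + (P - S / c) - (C * Y - S) / c := by
        field_simp; ring
      rw [e]
      refine (abs_sub _ _).trans ?_
      have := abs_add_le (C * X - P) (P - S / c)
      linarith
    have h7 : X / 2 ^ n - Y / (c * 2 ^ n) = C * (X - Y / c) / (C * 2 ^ n) := by
      field_simp
    rw [h7, abs_div, abs_of_pos (show 0 < C * 2 ^ n by positivity), div_le_iff₀ (by positivity)]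
    refine h6.trans (le_of_eq ?_)
    field_simp
  -- stretch
  have hs0 : 0 ≤ s := by
    refine le_trans ?_ (hs (fun _ => true) ⟨0, hn⟩)
    apply div_nonneg _ (Nat.cast_nonneg _)
    exact sum_nonneg fun ω _ => by unfold hd; positivity
  have hst : ∀ (x : Q n) (i : Fin n), ∑ U, hd (G U x) (G U (fl x i)) ≤
      M * (s + if (i : ℕ) < k then (2 * (R : ℝ) + 1) else 0) := by
    intro x i
    by_cases hi : (i : ℕ) < k
    · rw [if_pos hi]
      have h1 : ∀ U, hd (G U x) (G U (fl x i)) ≤ s + (2 * R + 1) := by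
        intro U
        have a1 := hd_emb_le (ψ (U (res hk x))) (hJ _) x
        have a2 := hd_emb_le (ψ (U (res hk (fl x i)))) (hJ _) (fl x i)
        have a3 := hd_emb_fl x i
        have a4 : hammingDist (G U x) (G U (fl x i)) ≤ R + 1 + R := by
          refine (hammingDist_triangle _ (emb x) _).trans ?_
          refine (Nat.add_le_add_left (hammingDist_triangle (emb x) (emb (fl x i)) _) _).trans ?_
          rw [hammingDist_comm (emb (fl x i))]
          have b1 : hammingDist (G U x) (emb x) ≤ R := a1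
          have b2 : hammingDist (G U (fl x i)) (emb (fl x i)) ≤ R := a2
          omega
        unfold hd
        have a5 : ((hammingDist (G U x) (G U (fl x i)) : ℕ) : ℝ) ≤ ((R + 1 + R : ℕ) : ℝ) := by
          exact_mod_cast a4
        push_cast at a5
        linarith
      refine (sum_le_sum fun U _ => h1 U).trans (le_of_eq ?_)
      rw [sum_const, card_univ, nsmul_eq_mul, ← hMd]
    · rw [if_neg hi, add_zero]
      have hr : res hk (fl x i) = res hk x := by
        funext j
        unfold res fl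
        apply Function.update_of_ne
        intro h
        apply hi
        rw [← h]
        simp
      have h1 := one_point (A := Fin k → Bool) (res hk x) (fun ω => hd (ψ ω x) (ψ ω (fl x i)))
      rw [← hcd, ← hMd] at h1
      have h2 := hs x i
      rw [← hcd, div_le_iff₀ hc] at h2
      have h3 : ∑ U, hd (G U x) (G U (fl x i)) =
          ∑ U : (Fin k → Bool) → Ω, hd (ψ (U (res hk x)) x) (ψ (U (res hk x)) (fl x i)) := by
        apply sum_congr rfl
        intro U _
        simp only [G]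
        rw [hr]
      rw [h3]
      have h4 : c * ∑ U : (Fin k → Bool) → Ω, hd (ψ (U (res hk x)) x) (ψ (U (res hk x)) (fl x i)) ≤
          c * (M * s) := by
        rw [h1]
        have := mul_le_mul_of_nonneg_left h2 hM0.le
        linarith
      exact le_of_mul_le_mul_left h4 hc
  have hStsum : ∑ U, ∑ x, ∑ i, hd (G U x) (G U (fl x i)) ≤ M * (2 ^ n * (n * s + k * (2 * R + 1))) := by
    rw [sum_comm]
    have h1 : ∀ x : Q n, ∑ U, ∑ i, hd (G U x) (G U (fl x i)) ≤ M * (n * s + k * (2 * R + 1)) := by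
      intro x
      rw [sum_comm]
      refine (sum_le_sum fun i _ => hst x i).trans (le_of_eq ?_)
      rw [← mul_sum, sum_add_distrib]
      congr 1
      rw [sum_const, card_univ, nsmul_eq_mul, Fintype.card_fin, ← sum_filter, sum_const, nsmul_eq_mul,
        card_lt hk]
    refine (sum_le_sum fun x _ => h1 x).trans (le_of_eq ?_)
    rw [sum_const, card_univ, nsmul_eq_mul]
    simp
    ring
  -- the average
  obtain ⟨RHS, hRHS⟩ : ∃ RHS : ℝ, RHS = s + (k : ℝ) / n * (2 * R + 1)
          + 2 * (2 * q + (n + 1) * Real.sqrt (2 * 2 ^ R / (k.choose q : ℝ))) := ⟨_, rfl⟩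
  have htot : ∑ U : (Fin k → Bool) → Ω, ((∑ x, ∑ i, hd (G U x) (G U (fl x i))) / (n * 2 ^ n) +
      2 * (2 * q + (n + 1) * L U / (C * 2 ^ n))) ≤ ∑ _U : (Fin k → Bool) → Ω, RHS := by
    rw [sum_const, card_univ, nsmul_eq_mul, ← hMd, sum_add_distrib, ← sum_div, ← mul_sum, sum_add_distrib,
      sum_const, card_univ, nsmul_eq_mul, ← hMd, ← sum_div, ← mul_sum]
    have h1 : (∑ U, ∑ x, ∑ i, hd (G U x) (G U (fl x i))) / (n * 2 ^ n) ≤
        M * (s + (k : ℝ) / n * (2 * R + 1)) := by
      rw [div_le_iff₀ (by positivity)]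
      refine hStsum.trans (le_of_eq ?_)
      field_simp
    have hroot : Real.sqrt (2 * 2 ^ R * C) / C = Real.sqrt (2 * 2 ^ R / C) := by
      rw [div_eq_iff hC.ne', ← Real.sqrt_sq hC.le, ← Real.sqrt_mul (by positivity), Real.sqrt_sq hC.le]
      congr 1
      field_simp
    have h2 : (n + 1) * (∑ U, L U) / (C * 2 ^ n) ≤ M * ((n + 1) * Real.sqrt (2 * 2 ^ R / C)) := by
      rw [← hroot, div_le_iff₀ (by positivity)]
      have h3 := mul_le_mul_of_nonneg_left hLsum (show (0 : ℝ) ≤ n + 1 by positivity)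
      refine h3.trans (le_of_eq ?_)
      field_simp
    rw [hRHS, ← hCd]
    linarith
  obtain ⟨U, _, hU⟩ := exists_le_of_sum_le (univ_nonempty) htot
  refine ⟨G U, 2 * q + (n + 1) * L U / (C * 2 ^ n), ?_, ?_⟩
  · intro f hf
    rw [← hcd]
    exact hfb U f hf
  · rw [← hRHS]
    exact hU

end Pool.Agent.Helper79.ST
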