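import Mathlib
import Pool.Agent.Helper79.ST.Defs

/-! # Package F: the asymptotic estimate -/

set_option autoImplicit false

namespace Pool.Agent.Helper79.ST

open Finset

/-- Package F (the asymptotic estimate). -/
theorem pkgF (K κ η : ℝ) (hK : 0 < K) (hκ : 0 < κ) (hη : 0 < η) :
    ∃ n0 : ℕ, ∀ n : ℕ, n0 ≤ n → ∀ R k q : ℕ, (R : ℝ) ≤ K * Real.sqrt n → κ * n - 1 ≤ (k : ℝ) →
      (q : ℝ) ≤ η * Real.sqrt n → η * Real.sqrt n - 1 ≤ (q : ℝ) →
      q ≤ k ∧ (n + 1) * Real.sqrt (2 * 2 ^ R / (k.choose q : ℝ)) ≤ 1 := by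
  set L : ℝ := (K * Real.log 2 + 1) / η with hL
  have hlog2 : 0 < Real.log 2 := Real.log_pos (by norm_num)
  have hL0 : 0 < L := by positivity
  set A : ℝ := Real.exp L with hA
  have hA0 : 0 < A := Real.exp_pos _
  have hA1 : 1 ≤ A := Real.one_le_exp hL0.le
  set s0 : ℝ := max 1 (max (960 * A) (max ((η + 1) / κ) (η * (1 + A) / κ))) with hs0
  refine ⟨⌈s0 ^ 2⌉₊, fun n hn R k q hR hk hq hq' => ?_⟩
  set s : ℝ := Real.sqrt n with hs
  have hn0 : (0 : ℝ) ≤ n := Nat.cast_nonneg n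
  have hs2 : s ^ 2 = n := Real.sq_sqrt hn0
  have hs0pos : 0 ≤ s0 := le_trans zero_le_one (le_max_left _ _)
  have hss : s0 ≤ s := by
    have h1 : s0 ^ 2 ≤ (n : ℝ) := (Nat.le_ceil _).trans (by exact_mod_cast hn)
    exact Real.le_sqrt_of_sq_le h1
  have h1 : 1 ≤ s := (le_max_left _ _).trans hss
  have h2 : 960 * A ≤ s := ((le_max_left _ _).trans (le_max_right _ _)).trans hss
  have h3 : (η + 1) / κ ≤ s :=
    (((le_max_left _ _).trans (le_max_right _ _)).trans (le_max_right _ _)).trans hss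
  have h4 : η * (1 + A) / κ ≤ s :=
    (((le_max_right _ _).trans (le_max_right _ _)).trans (le_max_right _ _)).trans hss
  have hspos : 0 < s := by linarith
  rw [div_le_iff₀ hκ] at h3 h4
  -- `q ≤ k`
  have hqk : q ≤ k := by
    have : (q : ℝ) ≤ k := by
      rw [← hs2] at hk
      nlinarith
    exact_mod_cast this
  refine ⟨hqk, ?_⟩
  -- the lower bound of the binomial coefficient
  have hchoose : A ^ q ≤ (k.choose q : ℝ) := by
    have a1 : (((k + 1 - q : ℕ) ^ q : ℕ) : ℝ) ≤ (q.factorial : ℝ) * k.choose q := by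
      rw [Nat.cast_pow]
      have h5 : ((k + 1 - q : ℕ) : ℝ) ^ q / (q.factorial : ℝ) ≤ k.choose q :=
        Nat.pow_le_choose q k
      rw [div_le_iff₀ (by exact_mod_cast Nat.factorial_pos q)] at h5
      linarith
    have a2 : A * q ≤ ((k + 1 - q : ℕ) : ℝ) := by
      rw [Nat.cast_sub (by omega)]
      push_cast
      rw [← hs2] at hk
      have b1 : A * q ≤ A * (η * s) := by gcongr
      nlinarith
    have a3 : (A * q) ^ q ≤ (q.factorial : ℝ) * k.choose q := by
      refine le_trans ?_ a1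
      rw [Nat.cast_pow]
      gcongr
    have a4 : (q.factorial : ℝ) ≤ (q : ℝ) ^ q := by exact_mod_cast Nat.factorial_le_pow q
    have a5 : (0 : ℝ) < q.factorial := by exact_mod_cast Nat.factorial_pos q
    have a6 : A ^ q * q.factorial ≤ (q.factorial : ℝ) * k.choose q := by
      calc A ^ q * q.factorial ≤ A ^ q * (q : ℝ) ^ q := by gcongr
        _ = (A * q) ^ q := by rw [mul_pow]
        _ ≤ _ := a3
    rw [mul_comm (A ^ q)] at a6
    exact le_of_mul_le_mul_left a6 a5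
  -- the exponential estimate
  have hexp : 2 * 2 ^ R * (n + 1 : ℝ) ^ 2 ≤ A ^ q := by
    have b1 : A ^ q = Real.exp (q * L) := by
      rw [hA, ← Real.exp_nat_mul]
    have b2 : Real.exp (s * (K * Real.log 2)) * Real.exp s / A ≤ A ^ q := by
      rw [b1, hA, ← Real.exp_add, ← Real.exp_sub]
      apply Real.exp_le_exp.mpr
      have : η * L = K * Real.log 2 + 1 := by
        rw [hL]; field_simp
      nlinarith
    have b3 : (2 : ℝ) ^ R ≤ Real.exp (s * (K * Real.log 2)) := by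
      have : (2 : ℝ) ^ R = Real.exp (R * Real.log 2) := by
        rw [Real.exp_nat_mul, Real.exp_log (by norm_num)]
      rw [this]
      apply Real.exp_le_exp.mpr
      nlinarith
    have b4 : s ^ 5 / 120 ≤ Real.exp s := by
      have := Real.pow_div_factorial_le_exp s hspos.le 5
      norm_num [Nat.factorial] at this
      exact this
    have b5 : 2 * A * (n + 1 : ℝ) ^ 2 ≤ Real.exp s := by
      rw [← hs2]
      refine le_trans ?_ b4
      have c1 : (s ^ 2 + 1) ^ 2 ≤ 4 * s ^ 4 := by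
        have : s ^ 2 + 1 ≤ 2 * s ^ 2 := by nlinarith
        calc (s ^ 2 + 1) ^ 2 ≤ (2 * s ^ 2) ^ 2 := by gcongr
          _ = 4 * s ^ 4 := by ring
      have c2 : 2 * A * (s ^ 2 + 1) ^ 2 ≤ 2 * A * (4 * s ^ 4) := by gcongr
      have c3 : 2 * A * (4 * s ^ 4) ≤ s ^ 5 / 120 := by
        have : 960 * A * s ^ 4 ≤ s * s ^ 4 := by gcongr
        have e : s * s ^ 4 = s ^ 5 := by ring
        rw [e] at this
        linarith
      exact c2.trans c3
    refine le_trans ?_ b2
    rw [le_div_iff₀ hA0]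
    calc 2 * 2 ^ R * (n + 1 : ℝ) ^ 2 * A = 2 ^ R * (2 * A * (n + 1 : ℝ) ^ 2) := by ring
      _ ≤ Real.exp (s * (K * Real.log 2)) * Real.exp s := by gcongr
  have hC : (0 : ℝ) < k.choose q := by exact_mod_cast Nat.choose_pos hqk
  have hfin : 2 * 2 ^ R / (k.choose q : ℝ) ≤ (1 / (n + 1 : ℝ)) ^ 2 := by
    rw [div_le_iff₀ hC, div_pow, one_pow, div_mul_eq_mul_div, one_mul,
      le_div_iff₀ (by positivity)]
    exact hexp.trans hchoose
  have hsq : Real.sqrt (2 * 2 ^ R / (k.choose q : ℝ)) ≤ 1 / (n + 1 : ℝ) := by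
    refine (Real.sqrt_le_sqrt hfin).trans ?_
    rw [Real.sqrt_sq (by positivity)]
  calc (n + 1 : ℝ) * Real.sqrt (2 * 2 ^ R / (k.choose q : ℝ)) ≤ (n + 1) * (1 / (n + 1)) := by
        gcongr
    _ = 1 := by field_simp

end Pool.Agent.Helper79.ST
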