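import Mathlib
import Pool.Agent.Helper79.ST.Defs

/-! # Package K: assignment duality -/

set_option autoImplicit false

namespace Pool.Agent.Helper79.ST

open Finset

namespace PK

variable {N : ℕ} {X Y : Type} [Fintype X] [Fintype Y]

/-- The minimum `min_y (v y + d(z, q y))`. -/
def mv (hY : (univ : Finset Y).Nonempty) (q : Y → Q N) (v : Y → ℤ) (z : Q N) : ℤ :=
  univ.inf' hY fun y => v y + (hammingDist z (q y) : ℤ)

lemma mv_le (hY : (univ : Finset Y).Nonempty) (q : Y → Q N) (v : Y → ℤ) (z : Q N) (y : Y) :
    mv hY q v z ≤ v y + (hammingDist z (q y) : ℤ) :=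
  Finset.inf'_le _ (Finset.mem_univ y)

lemma le_mv (hY : (univ : Finset Y).Nonempty) (q : Y → Q N) (v : Y → ℤ) (z : Q N) (c : ℤ)
    (h : ∀ y, c ≤ v y + (hammingDist z (q y) : ℤ)) : c ≤ mv hY q v z :=
  Finset.le_inf' _ _ fun y _ => h y

lemma dist_fl (z : Q N) (i : Fin N) : hammingDist z (fl z i) ≤ 1 := by
  unfold hammingDist
  refine (Finset.card_le_card (t := {i}) ?_).trans (by simp)
  intro j hj
  rw [Finset.mem_filter] at hj
  rw [Finset.mem_singleton]
  by_contra hne
  exact hj.2 (by simp [fl, Function.update_of_ne hne])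

lemma mv_lip (hY : (univ : Finset Y).Nonempty) (q : Y → Q N) (v : Y → ℤ) (z w : Q N)
    (h : hammingDist z w ≤ 1) : mv hY q v z ≤ mv hY q v w + 1 := by
  have : mv hY q v z - 1 ≤ mv hY q v w := by
    refine le_mv hY q v w _ fun y => ?_
    have h1 := mv_le hY q v z y
    have h2 := hammingDist_triangle z w (q y)
    have h3 : (hammingDist z (q y) : ℤ) ≤ hammingDist z w + hammingDist w (q y) := by
      exact_mod_cast h2
    have h4 : (hammingDist z w : ℤ) ≤ 1 := by exact_mod_cast h
    linarith
  linarith

end PK

/-- Package K (assignment duality, via Hall's theorem). -/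
theorem pkgK {N : ℕ} {X Y : Type} [Fintype X] [Fintype Y]
    (hc : Fintype.card X = Fintype.card Y) (p : X → Q N) (q : Y → Q N) (W : ℝ)
    (h : ∀ f : Q N → ℝ, Lip 1 f → ∑ x, f (p x) - ∑ y, f (q y) ≤ W) :
    ∃ σ : X ≃ Y, ∑ x, hd (p x) (q (σ x)) ≤ W := by
  classical
  rcases (univ : Finset Y).eq_empty_or_nonempty with hY | hY
  · have hY0 : Fintype.card Y = 0 := by
      rw [← Finset.card_univ, hY, Finset.card_empty]
    have hX : IsEmpty X := Fintype.card_eq_zero_iff.mp (hc.trans hY0)
    have hYe : IsEmpty Y := Fintype.card_eq_zero_iff.mp hY0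
    refine ⟨Fintype.equivOfCardEq hc, ?_⟩
    have := h (fun _ => 0) (fun x i => by simp)
    simpa using this
  · set m : (Y → ℤ) → Q N → ℤ := fun v z => PK.mv hY q v z with hm
    set J : (Y → ℤ) → ℤ := fun v => ∑ x, m v (p x) - ∑ y, v y with hJ
    have hJW : ∀ v, (J v : ℝ) ≤ W := by
      intro v
      have h1 := h (fun z => (m v z : ℝ)) (by
        intro z i
        have a1 := PK.mv_lip hY q v z (fl z i) (PK.dist_fl z i)
        have a2 := PK.mv_lip hY q v (fl z i) z (by
          rw [hammingDist_comm]; exact PK.dist_fl z i)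
        rw [abs_le]
        constructor
        · have : (m v (fl z i) : ℝ) ≤ (m v z : ℝ) + 1 := by exact_mod_cast a2
          linarith
        · have : (m v z : ℝ) ≤ (m v (fl z i) : ℝ) + 1 := by exact_mod_cast a1
          linarith)
      have h2 : ∑ y, (m v (q y) : ℝ) ≤ ∑ y, (v y : ℝ) := by
        refine Finset.sum_le_sum fun y _ => ?_
        have := PK.mv_le hY q v (q y) y
        rw [hammingDist_self] at this
        have h3 : m v (q y) ≤ v y := by simpa using this
        exact_mod_cast h3
      have h3 : (J v : ℝ) = ∑ x, (m v (p x) : ℝ) - ∑ y, (v y : ℝ) := by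
        simp only [hJ]; push_cast; rfl
      rw [h3]
      linarith
    obtain ⟨ub, ⟨v, hv⟩, hub⟩ := Int.exists_greatest_of_bdd (P := fun z => ∃ v, J v = z)
      ⟨⌊W⌋, by
        rintro z ⟨v, rfl⟩
        exact Int.le_floor.mpr (hJW v)⟩ ⟨J fun _ => 0, ⟨fun _ => 0, rfl⟩⟩
    set t : X → Finset Y := fun x =>
      univ.filter fun y => v y + (hammingDist (p x) (q y) : ℤ) = m v (p x) with ht
    have hall : ∀ S : Finset X, S.card ≤ (S.biUnion t).card := by
      intro S
      by_contra hcon
      push Not at hcon
      set T := S.biUnion t with hT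
      set v' : Y → ℤ := fun y => v y + if y ∈ T then 1 else 0 with hv'
      have h1 : ∀ x, m v (p x) + (if x ∈ S then 1 else 0) ≤ m v' (p x) := by
        intro x
        refine PK.le_mv hY q v' (p x) _ fun y => ?_
        have h2 : m v (p x) ≤ v y + (hammingDist (p x) (q y) : ℤ) := PK.mv_le hY q v (p x) y
        by_cases hy : y ∈ T
        · have e : v' y = v y + 1 := by simp [hv', hy]
          rw [e]
          split_ifs <;> linarith
        · have e : v' y = v y := by simp [hv', hy]
          rw [e]
          split_ifs with hx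
          · have hne : v y + (hammingDist (p x) (q y) : ℤ) ≠ m v (p x) := by
              intro heq
              exact hy (Finset.mem_biUnion.mpr ⟨x, hx, Finset.mem_filter.mpr
                ⟨Finset.mem_univ y, heq⟩⟩)
            have := lt_of_le_of_ne h2 (Ne.symm hne)
            linarith [Int.add_one_le_iff.mpr this]
          · linarith
      have h2 : ∑ x, m v (p x) + (S.card : ℤ) ≤ ∑ x, m v' (p x) := by
        have := Finset.sum_le_sum fun x (_ : x ∈ (univ : Finset X)) => h1 x
        rw [Finset.sum_add_distrib] at this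
        have e : ∑ x : X, (if x ∈ S then (1 : ℤ) else 0) = S.card := by
          rw [Finset.sum_ite_mem, Finset.univ_inter]; simp
        rwa [e] at this
      have h3 : ∑ y, v' y = ∑ y, v y + (T.card : ℤ) := by
        simp only [hv', Finset.sum_add_distrib]
        congr 1
        rw [Finset.sum_ite_mem, Finset.univ_inter]; simp
      have h4 : J v' ≤ J v := by
        rw [hv]
        exact hub _ ⟨v', rfl⟩
      simp only [hJ] at h4
      rw [h3] at h4
      have h5 : (T.card : ℤ) < S.card := by exact_mod_cast hcon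
      linarith
    obtain ⟨f, hinj, hf⟩ := (Finset.all_card_le_biUnion_card_iff_exists_injective t).mp hall
    have hbij : Function.Bijective f :=
      (Fintype.bijective_iff_injective_and_card f).mpr ⟨hinj, hc⟩
    refine ⟨Equiv.ofBijective f hbij, ?_⟩
    have e : ∑ x, hd (p x) (q (Equiv.ofBijective f hbij x)) = (J v : ℝ) := by
      have e1 : ∀ x, hd (p x) (q (f x)) = (m v (p x) : ℝ) - v (f x) := by
        intro x
        have := (Finset.mem_filter.mp (hf x)).2
        have h6 : ((v (f x) + (hammingDist (p x) (q (f x)) : ℤ) : ℤ) : ℝ) = (m v (p x) : ℝ) := by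
          exact_mod_cast this
        push_cast at h6
        rw [hd]
        linarith
      simp only [Equiv.ofBijective_apply, e1, Finset.sum_sub_distrib, hJ]
      push_cast
      congr 1
      exact hbij.sum_comp fun y => (v y : ℝ)
    rw [e]
    exact hJW v

end Pool.Agent.Helper79.ST
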