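import Pool.Agent.Helper79.ST.Basic
import Pool.Agent.Helper79.ST.PkgK
import Pool.Agent.Helper79.ST.PkgB
import Pool.Agent.Helper79.ST.PkgC
import Pool.Agent.Helper79.ST.PkgD2
import Pool.Agent.Helper79.ST.PkgE
import Pool.Agent.Helper79.ST.PkgF

/-! # Assembly of S07083 from the packages K, B, C, D, E, F -/


set_option autoImplicit false

namespace Pool.Agent.Helper79.ST

open Finset

theorem emb_fl {n : ℕ} (x : Q n) (i : Fin n) : emb (fl x i) = fl (emb x) i.castSucc := by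
  unfold emb fl
  ext k
  refine Fin.lastCases ?_ (fun j => ?_) k
  · rw [Function.update_of_ne (Fin.castSucc_lt_last i).ne']
    simp
  · by_cases h : j = i
    · subst h; simp
    · rw [Function.update_of_ne (fun e => h (Fin.castSucc_injective _ e))]
      simp [Function.update_of_ne h]

/-- stretch of a bijection that is close to a map `G` -/
theorem stretch_le {n N : ℕ} (G φ : Q n → Q N) :
    ∑ x, ∑ i, hd (φ x) (φ (fl x i))
      ≤ ∑ x, ∑ i, hd (G x) (G (fl x i)) + 2 * (n * ∑ x, hd (G x) (φ x)) := by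
  have h1 : ∀ x i, hd (φ x) (φ (fl x i))
      ≤ hd (G x) (G (fl x i)) + (hd (G x) (φ x) + hd (G (fl x i)) (φ (fl x i))) := by
    intro x i
    have h1 := hd_tri (φ x) (G x) (φ (fl x i))
    have h2 := hd_tri (G x) (G (fl x i)) (φ (fl x i))
    rw [hd_comm (φ x) (G x)] at h1
    linarith
  calc ∑ x, ∑ i, hd (φ x) (φ (fl x i))
      ≤ ∑ x, ∑ i, (hd (G x) (G (fl x i))
          + (hd (G x) (φ x) + hd (G (fl x i)) (φ (fl x i)))) :=
        Finset.sum_le_sum fun x _ => Finset.sum_le_sum fun i _ => h1 x i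
    _ = ∑ x, ∑ i, hd (G x) (G (fl x i)) + (∑ x, ∑ _i : Fin n, hd (G x) (φ x)
          + ∑ x, ∑ i : Fin n, hd (G (fl x i)) (φ (fl x i))) := by
        simp only [Finset.sum_add_distrib]
    _ = _ := by
        have h2 : ∑ x, ∑ i : Fin n, hd (G (fl x i)) (φ (fl x i))
            = ∑ x, ∑ _i : Fin n, hd (G x) (φ x) := by
          rw [Finset.sum_comm, Finset.sum_comm (s := univ (α := Q n))]
          refine Finset.sum_congr rfl fun i _ => ?_
          exact Equiv.sum_comp (flEquiv i) (fun x => hd (G x) (φ x))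
        rw [h2]
        simp only [Finset.sum_const, Finset.card_univ, Fintype.card_fin, nsmul_eq_mul]
        rw [← Finset.mul_sum]
        ring


theorem sum_Q_succ {n : ℕ} (f : Q (n + 1) → ℝ) :
    ∑ y, f y = ∑ x : Q n, (f (emb x) + f (fl (emb x) (Fin.last n))) := by
  have e1 := Equiv.sum_comp (Fin.snocEquiv (fun _ : Fin (n + 1) => Bool)) f
  rw [← e1, Fintype.sum_prod_type, Fintype.sum_bool, ← Finset.sum_add_distrib]
  refine Finset.sum_congr rfl fun x _ => ?_
  congr 1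
  congr 1
  unfold fl emb
  ext k
  refine Fin.lastCases ?_ (fun j => ?_) k
  · simp
  · rw [Function.update_of_ne (Fin.castSucc_lt_last j).ne]
    simp

theorem base_law {n : ℕ} (f : Q (n + 1) → ℝ) (hf : Lip 1 f) :
    |(∑ x : Q n, f (emb x)) / (Fintype.card (Q n) : ℝ) - (∑ y, f y) / 2 ^ (n + 1)| ≤ 1 := by
  rw [sum_Q_succ]
  have hc : (Fintype.card (Q n) : ℝ) = 2 ^ n := by simp
  rw [hc]
  have h2 : (0 : ℝ) < 2 ^ n := by positivity
  have e : (∑ x : Q n, f (emb x)) / 2 ^ n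
      - (∑ x : Q n, (f (emb x) + f (fl (emb x) (Fin.last n)))) / 2 ^ (n + 1)
      = (∑ x : Q n, (f (emb x) - f (fl (emb x) (Fin.last n)))) / 2 ^ (n + 1) := by
    rw [Finset.sum_add_distrib, Finset.sum_sub_distrib, pow_succ]
    field_simp
    ring
  rw [e, abs_div, abs_of_pos (by positivity : (0:ℝ) < 2 ^ (n + 1)), div_le_one (by positivity)]
  calc |∑ x : Q n, (f (emb x) - f (fl (emb x) (Fin.last n)))|
      ≤ ∑ x : Q n, |f (emb x) - f (fl (emb x) (Fin.last n))| := Finset.abs_sum_le_sum_abs _ _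
    _ ≤ ∑ _x : Q n, 1 := Finset.sum_le_sum fun x _ => hf _ _
    _ = 2 ^ n := by simp
    _ ≤ 2 ^ (n + 1) := by rw [pow_succ]; linarith

theorem Lip_mono {N : ℕ} {c d : ℝ} (h : c ≤ d) {f : Q N → ℝ} (hf : Lip c f) : Lip d f :=
  fun x i => (hf x i).trans h


theorem main_aux (n : ℕ) (hn : 2 ≤ n) (lam δ K κ η : ℝ) (hlam : 0 < lam) (hδ : 0 < δ)
    (hδ1 : δ ≤ 1 / 2) (hK : K = lam / δ + 1) (hκ : 0 < κ) (hκ1 : κ ≤ 1) (hη : 0 < η)
    (hF : ∀ R k q : ℕ, (R : ℝ) ≤ K * Real.sqrt n → κ * n - 1 ≤ (k : ℝ) →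
      (q : ℝ) ≤ η * Real.sqrt n → η * Real.sqrt n - 1 ≤ (q : ℝ) →
      q ≤ k ∧ (n + 1) * Real.sqrt (2 * 2 ^ R / (k.choose q : ℝ)) ≤ 1)
    (A : Finset (Q (n + 1))) (hA : A.card = 2 ^ n) :
    ∃ φ : Q n ≃ A, (∑ x, ∑ i, hd (φ x).1 (φ (fl x i)).1) / (n * 2 ^ n)
      ≤ Real.exp (1 + (2 * lam / δ + lam ^ 2 / (2 * δ ^ 2)) / 2)
        + κ * (2 * K * Real.sqrt n + 1) + 2 * (2 * (η * Real.sqrt n) + 1)
        + 2 * (Real.exp (1 + (2 * lam / δ + lam ^ 2 / (2 * δ ^ 2)) / 2) * (2 + K * lam / 4))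
        + 2 * (δ * lam / 2 + 1 / (2 * lam)) * Real.sqrt (n + 1) := by
  have hn0 : (0 : ℝ) < n := by positivity
  have hn1 : (1 : ℝ) ≤ n := by exact_mod_cast (by omega : 1 ≤ n)
  have hNR : ((n + 1 : ℕ) : ℝ) = n + 1 := by push_cast; ring
  set sN : ℝ := Real.sqrt (n + 1) with hsN
  have hsN0 : 0 < sN := Real.sqrt_pos.mpr (by positivity)
  have hsN2 : sN ^ 2 = n + 1 := Real.sq_sqrt (by positivity)
  have hsN1 : 1 ≤ sN := by
    rw [hsN]; exact Real.one_le_sqrt.mpr (by linarith)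
  have hsn1 : 1 ≤ Real.sqrt n := Real.one_le_sqrt.mpr hn1
  have hsNn : sN ≤ 2 * Real.sqrt n := by
    rw [hsN]
    have : Real.sqrt ((n : ℝ) + 1) ≤ Real.sqrt (4 * n) := Real.sqrt_le_sqrt (by linarith)
    refine this.trans (le_of_eq ?_)
    rw [Real.sqrt_mul (by norm_num), show (4 : ℝ) = 2 ^ 2 by norm_num, Real.sqrt_sq (by norm_num)]
  set β : ℝ := lam / sN with hβ
  have hβ0 : 0 < β := div_pos hlam hsN0
  have h2N : (0 : ℝ) < 2 ^ (n + 1) := by positivity
  have h2n : (0 : ℝ) < 2 ^ n := by positivity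
  have h2Nn : (2 : ℝ) ^ (n + 1) = 2 * 2 ^ n := by rw [pow_succ]; ring
  -- the density
  classical
  set h : Q (n + 1) → ℝ := fun x => if x ∈ A then 2 else 0 with hh
  have hsumf : ∀ f : Q (n + 1) → ℝ, ∑ x, f x * h x = 2 * ∑ y : A, f y.1 := by
    intro f
    rw [hh]
    simp only [mul_ite, mul_zero]
    rw [← Finset.sum_filter, Finset.filter_mem_eq_inter, Finset.univ_inter,
      Finset.sum_coe_sort A (fun y => f y), Finset.mul_sum]
    exact Finset.sum_congr rfl fun x _ => mul_comm _ _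
  have hmean : ∑ x, h x = 2 ^ (n + 1) := by
    have := hsumf (fun _ => 1)
    simp only [one_mul, Finset.sum_const, Finset.card_univ, Fintype.card_coe, hA] at this
    rw [this, h2Nn]; simp
  obtain ⟨u0, hu00, hu02, hu0m, hu0L, hu0D⟩ := pkgB h (fun x => by simp only [hh]; split_ifs <;> norm_num)
    (fun x => by simp only [hh]; split_ifs <;> norm_num) hmean β hβ0
  set u : Q (n + 1) → ℝ := fun x => (1 - δ) * u0 x + δ with hu
  have hδ1' : 0 < 1 - δ := by linarith
  have huδ : ∀ x, δ ≤ u x := by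
    intro x
    have := mul_nonneg hδ1'.le (hu00 x)
    simp only [hu]; linarith
  have hum : ∑ x, u x = 2 ^ (n + 1) := by
    simp only [hu]
    rw [Finset.sum_add_distrib, ← Finset.mul_sum, hu0m]
    simp
    ring
  have huL : Lip β u := by
    intro x i
    have h1 := hu0L x i
    have e : u x - u (fl x i) = (1 - δ) * (u0 x - u0 (fl x i)) := by simp only [hu]; ring
    rw [e, abs_mul, abs_of_pos hδ1']
    have := abs_nonneg (u0 x - u0 (fl x i))
    nlinarith
  obtain ⟨F, hF1, hF2, hF3⟩ := pkgC u β hβ0.le huL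
  have hF1' : ∀ f : Q (n + 1) → ℝ, ∑ j, ∑ x, dd j f x * F j x = ∑ x, f x * (u x - 1) := by
    intro f
    rw [hF1 f, hum, div_self h2N.ne']
  set Lam : ℝ := 2 * lam with hLam
  have hF3' : ∀ x i, ∑ j, |F j x - F j (fl x i)| ≤ Lam := by
    intro x i
    refine (hF3 x i).trans (le_of_eq ?_)
    rw [hNR, ← hsN, hβ, hLam]
    field_simp
  have hR0 : ((n + 1 : ℕ) : ℝ) * β / (2 * δ) = lam * sN / (2 * δ) := by
    rw [hβ, hNR, ← hsN2]
    field_simp
  set R : ℕ := ⌈lam * sN / (2 * δ)⌉₊ with hR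
  have hRge : lam * sN / (2 * δ) ≤ R := Nat.le_ceil _
  have hRpos : 0 < R := by
    rw [hR]; exact Nat.ceil_pos.mpr (by positivity)
  have hRle : (R : ℝ) ≤ K * Real.sqrt n := by
    have h1 : (R : ℝ) < lam * sN / (2 * δ) + 1 := Nat.ceil_lt_add_one (by positivity)
    have h2 : lam * sN / (2 * δ) ≤ lam / δ * Real.sqrt n := by
      rw [div_mul_eq_mul_div, div_le_div_iff₀ (by positivity) hδ]
      have := mul_le_mul_of_nonneg_left hsNn hlam.le
      nlinarith
    rw [hK, add_mul, one_mul]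
    linarith
  obtain ⟨Ω, hΩ1, hΩ2, ψ, hψ1, hψ2, hψ3⟩ := pkgD2 (N := n + 1) (by omega) u F δ β Lam hδ (by linarith)
    hβ0.le (by positivity) huδ hum huL hF1' hF2 hF3' R hRpos (by rw [hR0]; exact hRge)
    (X := Q n) emb 1 (fun f hf => base_law f hf)
  have hcard : (Fintype.card (Q n) : ℝ) = 2 ^ n := by simp
  have hexp : (Lam / δ + ((n + 1 : ℕ) : ℝ) * β ^ 2 / (2 * δ ^ 2)) / 2 = (2 * lam / δ + lam ^ 2 / (2 * δ ^ 2)) / 2 := by
    have : ((n + 1 : ℕ) : ℝ) * β ^ 2 = lam ^ 2 := by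
      rw [hβ, div_pow, hsN2, hNR]; field_simp
    rw [this, hLam]
  set EC : ℝ := Real.exp (1 + (2 * lam / δ + lam ^ 2 / (2 * δ ^ 2)) / 2) with hEC
  rw [hexp] at hψ1 hψ2
  have hEC0 : 0 < EC := Real.exp_pos _
  have hK0 : 0 < K := by rw [hK]; positivity
  have hRβ : R * β / 4 ≤ K * lam / 4 := by
    have h1 : Real.sqrt n ≤ sN := Real.sqrt_le_sqrt (by linarith)
    have h2 : (R : ℝ) * β ≤ K * lam := by
      rw [hβ, mul_div_assoc', div_le_iff₀ hsN0]
      have h3 : (R : ℝ) ≤ K * sN := hRle.trans (mul_le_mul_of_nonneg_left h1 hK0.le)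
      nlinarith
    linarith
  -- derandomisation
  set k : ℕ := ⌊κ * n⌋₊ with hk
  set q : ℕ := ⌊η * Real.sqrt n⌋₊ with hq
  have hk1 : κ * n - 1 ≤ (k : ℝ) := by
    have := Nat.lt_floor_add_one (κ * n); linarith
  have hk2 : (k : ℝ) ≤ κ * n := Nat.floor_le (by positivity)
  have hkn : k ≤ n := by
    have : (k : ℝ) ≤ n := hk2.trans (by nlinarith)
    exact_mod_cast this
  have hq1 : (q : ℝ) ≤ η * Real.sqrt n := Nat.floor_le (by positivity)
  have hq2 : η * Real.sqrt n - 1 ≤ (q : ℝ) := by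
    have := Nat.lt_floor_add_one (η * Real.sqrt n); linarith
  obtain ⟨hqk, hch⟩ := hF R k q hRle hk1 hq1 hq2
  obtain ⟨G, w, hG1, hG2⟩ := pkgE (by omega : 0 < n) Ω ψ R hψ3 EC (by
      intro x i
      have := hψ2 x (fl x i)
      rw [emb_fl, hd_fl, mul_one] at this
      exact this) k q hkn hqk
  -- the bijection
  set W : ℝ := 2 ^ n * (w + EC * (2 + K * lam / 4) + (δ * lam / 2 + 1 / (2 * lam)) * sN) with hW
  obtain ⟨σ, hσ⟩ := pkgK (N := n + 1) (X := Q n) (Y := A) (by simp [hA]) G (fun y => y.1) W (by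
    intro f hf
    have h1 := (abs_le.mp (hG1 f hf)).2
    have h2 := (abs_le.mp (hψ1 f hf)).2
    rw [hcard] at h2
    have h3 := (abs_le.mp (hu0D f hf)).1
    have h4 : ∑ x, f x * (u0 x - 1) ≤ 2 ^ (n + 1) * (lam * sN / 2) := by
      have e1 : ∑ x, f x * (u x - 1) = (1 - δ) * ∑ x, f x * (u0 x - 1) := by
        rw [Finset.mul_sum]
        refine Finset.sum_congr rfl fun x _ => ?_
        simp only [hu]; ring
      have e2 : |∑ x, f x * (u x - 1)| ≤ 2 ^ (n + 1) * (lam * sN / 4) := by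
        rw [← hF1' f]
        calc |∑ j, ∑ x, dd j f x * F j x| ≤ ∑ j, ∑ x, |dd j f x * F j x| :=
              (Finset.abs_sum_le_sum_abs _ _).trans
                (Finset.sum_le_sum fun j _ => Finset.abs_sum_le_sum_abs _ _)
          _ ≤ ∑ _j : Fin (n + 1), ∑ _x : Q (n + 1), (1 / 2) * (β / 2) := by
              refine Finset.sum_le_sum fun j _ => Finset.sum_le_sum fun x _ => ?_
              rw [abs_mul]
              exact mul_le_mul (dd_le hf j x) (hF2 j x) (abs_nonneg _) (by norm_num)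
          _ = 2 ^ (n + 1) * (lam * sN / 4) := by
              simp only [Finset.sum_const, Finset.card_univ, Fintype.card_fin, nsmul_eq_mul,
                Fintype.card_pi, Fintype.card_bool, Finset.prod_const]
              rw [hβ, hNR, ← hsN2]
              push_cast
              field_simp
              ring
      have e3 := (abs_le.mp e2).2
      have e4 := (abs_le.mp e2).1
      rw [e1] at e3 e4
      by_contra hcon
      push Not at hcon
      have : (1 - δ) * (2 ^ (n + 1) * (lam * sN / 2)) < (1 - δ) * ∑ x, f x * (u0 x - 1) :=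
        mul_lt_mul_of_pos_left hcon hδ1'
      have h5 : 0 < (2 : ℝ) ^ (n + 1) * (lam * sN / 2) := by positivity
      nlinarith
    have h4' : -(2 ^ (n + 1) * (lam * sN / 2)) ≤ ∑ x, f x * (u0 x - 1) := by
      have e1 : ∑ x, f x * (u x - 1) = (1 - δ) * ∑ x, f x * (u0 x - 1) := by
        rw [Finset.mul_sum]
        refine Finset.sum_congr rfl fun x _ => ?_
        simp only [hu]; ring
      have e2 : |∑ x, f x * (u x - 1)| ≤ 2 ^ (n + 1) * (lam * sN / 4) := by
        rw [← hF1' f]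
        calc |∑ j, ∑ x, dd j f x * F j x| ≤ ∑ j, ∑ x, |dd j f x * F j x| :=
              (Finset.abs_sum_le_sum_abs _ _).trans
                (Finset.sum_le_sum fun j _ => Finset.abs_sum_le_sum_abs _ _)
          _ ≤ ∑ _j : Fin (n + 1), ∑ _x : Q (n + 1), (1 / 2) * (β / 2) := by
              refine Finset.sum_le_sum fun j _ => Finset.sum_le_sum fun x _ => ?_
              rw [abs_mul]
              exact mul_le_mul (dd_le hf j x) (hF2 j x) (abs_nonneg _) (by norm_num)
          _ = 2 ^ (n + 1) * (lam * sN / 4) := by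
              simp only [Finset.sum_const, Finset.card_univ, Fintype.card_fin, nsmul_eq_mul,
                Fintype.card_pi, Fintype.card_bool, Finset.prod_const]
              rw [hβ, hNR, ← hsN2]
              push_cast
              field_simp
              ring
      have e4 := (abs_le.mp e2).1
      rw [e1] at e4
      by_contra hcon
      push Not at hcon
      have : (1 - δ) * ∑ x, f x * (u0 x - 1) < (1 - δ) * (-(2 ^ (n + 1) * (lam * sN / 2))) :=
        mul_lt_mul_of_pos_left hcon hδ1'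
      have h5 : 0 < (2 : ℝ) ^ (n + 1) * (lam * sN / 2) := by positivity
      nlinarith
    -- Σ f u - Σ f h
    have h5 : ∑ y, f y * u y - ∑ x, f x * h x ≤ 2 ^ (n + 1) * ((δ * lam / 2 + 1 / (2 * lam)) * sN) := by
      have e1 : ∑ y, f y * u y - ∑ x, f x * h x
          = -(δ * ∑ x, f x * (u0 x - 1)) - ∑ x, f x * (h x - u0 x) := by
        rw [Finset.mul_sum, ← Finset.sum_neg_distrib, ← Finset.sum_sub_distrib,
          ← Finset.sum_sub_distrib]
        refine Finset.sum_congr rfl fun x _ => ?_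
        simp only [hu]; ring
      rw [e1]
      have e2 : (2 : ℝ) ^ (n + 1) / (2 * β) = 2 ^ (n + 1) * (1 / (2 * lam) * sN) := by
        rw [hβ]; field_simp
      rw [e2] at h3
      nlinarith
    have h6 : ∑ y : A, f y.1 = (∑ x, f x * h x) / 2 := by rw [hsumf f]; ring
    rw [h6]
    have h7 : EC * (1 + ↑R * β / 4 + 1) ≤ EC * (2 + K * lam / 4) :=
      mul_le_mul_of_nonneg_left (by linarith) hEC0.le
    rw [hW]
    have h8 : (∑ x, f (G x)) / 2 ^ n - (∑ y, f y * u y) / 2 ^ (n + 1) ≤ w + EC * (2 + K * lam / 4) := by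
      linarith
    rw [h2Nn] at h8 h5
    have h9 : (∑ x, f (G x)) - (∑ y, f y * u y) / 2 ≤ 2 ^ n * (w + EC * (2 + K * lam / 4)) := by
      have := mul_le_mul_of_nonneg_left h8 h2n.le
      have e : (2 : ℝ) ^ n * ((∑ x, f (G x)) / 2 ^ n - (∑ y, f y * u y) / (2 * 2 ^ n))
          = (∑ x, f (G x)) - (∑ y, f y * u y) / 2 := by
        field_simp
      rw [e] at this
      exact this
    linarith)
  refine ⟨σ, ?_⟩
  have h1 := stretch_le G (fun x => (σ x).1)
  have h2 : (∑ x, ∑ i, hd (σ x).1 (σ (fl x i)).1) / (n * 2 ^ n)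
      ≤ (∑ x, ∑ i, hd (G x) (G (fl x i))) / (n * 2 ^ n) + 2 * (W / 2 ^ n) := by
    have e : 2 * (W / 2 ^ n) = (2 * (n * W)) / (n * 2 ^ n) := by field_simp
    rw [e, ← add_div]
    apply div_le_div_of_nonneg_right _ (by positivity)
    have : 2 * ((n : ℝ) * ∑ x, hd (G x) (σ x).1) ≤ 2 * (n * W) := by
      have := mul_le_mul_of_nonneg_left hσ hn0.le
      linarith
    linarith
  have h3 : W / 2 ^ n = w + EC * (2 + K * lam / 4) + (δ * lam / 2 + 1 / (2 * lam)) * sN := by
    rw [hW]; field_simp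
  rw [h3] at h2
  have h4 : (k : ℝ) / n * (2 * R + 1) ≤ κ * (2 * K * Real.sqrt n + 1) := by
    have e1 : (k : ℝ) / n ≤ κ := by rw [div_le_iff₀ hn0]; exact hk2
    have e2 : 2 * (R : ℝ) + 1 ≤ 2 * K * Real.sqrt n + 1 := by linarith
    exact mul_le_mul e1 e2 (by positivity) hκ.le
  linarith


end Pool.Agent.Helper79.ST
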