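import Pool.Agent.Helper79.ST.Defs

/-! # Basic lemmas on the cube -/

set_option autoImplicit false

namespace Pool.Agent.Helper79.ST

open Finset

theorem fl_fl {N : ℕ} (x : Q N) (i : Fin N) : fl (fl x i) i = x := by
  unfold fl
  ext k
  by_cases h : k = i
  · subst h; simp
  · simp [Function.update_of_ne h]

/-- flipping is an equivalence -/
def flEquiv {N : ℕ} (i : Fin N) : Q N ≃ Q N where
  toFun x := fl x i
  invFun x := fl x i
  left_inv x := fl_fl x i
  right_inv x := fl_fl x i

theorem hd_comm {N : ℕ} (x y : Q N) : hd x y = hd y x := by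
  unfold hd; rw [hammingDist_comm]

theorem hd_self {N : ℕ} (x : Q N) : hd x x = 0 := by
  unfold hd; simp

theorem hd_nonneg {N : ℕ} (x y : Q N) : 0 ≤ hd x y := by
  unfold hd; positivity

theorem hd_tri {N : ℕ} (x y z : Q N) : hd x z ≤ hd x y + hd y z := by
  unfold hd; exact_mod_cast hammingDist_triangle x y z

theorem hd_fl {N : ℕ} (x : Q N) (i : Fin N) : hd x (fl x i) = 1 := by
  unfold hd
  have : hammingDist x (fl x i) = 1 := by
    unfold hammingDist
    rw [Finset.card_eq_one]
    refine ⟨i, ?_⟩
    ext k
    simp only [mem_filter, mem_univ, true_and, mem_singleton]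
    unfold fl
    constructor
    · intro h
      by_contra hk
      exact h (by rw [Function.update_of_ne hk])
    · rintro rfl
      simp
  exact_mod_cast this

/-- A step towards `y`. -/
theorem step_towards {N : ℕ} (x y : Q N) (i : Fin N) (hi : x i ≠ y i) :
    hammingDist (fl x i) y + 1 = hammingDist x y := by
  unfold hammingDist
  have e : (univ.filter fun k => x k ≠ y k)
      = insert i (univ.filter fun k => fl x i k ≠ y k) := by
    ext k
    simp only [mem_filter, mem_univ, true_and, mem_insert]
    by_cases hk : k = i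
    · subst hk; simp [hi]
    · unfold fl; rw [Function.update_of_ne hk]; simp [hk]
  rw [e, card_insert_of_notMem]
  simp only [mem_filter, mem_univ, true_and, not_not]
  unfold fl
  simp only [Function.update_self]
  cases hx : x i <;> cases hy : y i <;> simp_all

/-- A pseudo-distance is at most `c` times the Hamming distance if it is so for neighbours. -/
theorem path {N : ℕ} (Φ : Q N → Q N → ℝ) (c : ℝ) (h0 : ∀ x, Φ x x ≤ 0)
    (h1 : ∀ x i, Φ x (fl x i) ≤ c) (htri : ∀ x y z, Φ x z ≤ Φ x y + Φ y z) :
    ∀ x y, Φ x y ≤ c * hd x y := by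
  have key : ∀ d : ℕ, ∀ x y, hammingDist x y = d → Φ x y ≤ c * d := by
    intro d
    induction d with
    | zero =>
      intro x y h
      have : x = y := by simpa using h
      subst this
      simpa using h0 x
    | succ d ih =>
      intro x y h
      have hne : x ≠ y := by
        intro e; subst e; simp at h
      obtain ⟨i, hi⟩ := Function.ne_iff.mp hne
      have h2 := step_towards x y i hi
      have h3 := ih (fl x i) y (by omega)
      have h4 := htri x (fl x i) y
      have h5 := h1 x i
      push_cast
      linarith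
  intro x y
  exact key _ x y rfl

theorem Lip.abs_le {N : ℕ} {c : ℝ} {f : Q N → ℝ} (hf : Lip c f) (x y : Q N) :
    |f x - f y| ≤ c * hd x y :=
  path (fun x y => |f x - f y|) c (fun x => by simp) hf
    (fun x y z => by
      have := abs_sub_le (f x) (f y) (f z)
      exact this) x y

theorem dd_le {N : ℕ} {c : ℝ} {f : Q N → ℝ} (hf : Lip c f) (j : Fin N) (x : Q N) :
    |dd j f x| ≤ c / 2 := by
  unfold dd
  rw [abs_div, abs_of_pos (by norm_num : (0:ℝ) < 2)]
  have h := hf (Function.update x j true) j
  have e : fl (Function.update x j true) j = Function.update x j false := by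
    unfold fl; simp
  rw [e] at h
  linarith

theorem dd_fl {N : ℕ} (f : Q N → ℝ) (j : Fin N) (x : Q N) : dd j f (fl x j) = dd j f x := by
  unfold dd fl
  simp

theorem sg_fl {N : ℕ} (x : Q N) (j : Fin N) : sg (fl x j j) = - sg (x j) := by
  unfold fl sg
  cases x j <;> simp

theorem sg_mul_sub {N : ℕ} (f : Q N → ℝ) (j : Fin N) (x : Q N) :
    sg (x j) * (f x - f (fl x j)) / 2 = dd j f x := by
  unfold dd fl sg
  cases h : x j
  · have : Function.update x j false = x := by rw [← h]; simp
    simp only [Bool.not_false, this]
    simp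
  · have : Function.update x j true = x := by rw [← h]; simp
    simp only [Bool.not_true, this]
    simp

theorem sum_sg_mul {N : ℕ} (H g : Q N → ℝ) (j : Fin N) (hg : ∀ x, g (fl x j) = g x) :
    ∑ x, H x * sg (x j) * g x = ∑ x, dd j H x * g x := by
  have h1 : ∑ x, H x * sg (x j) * g x = ∑ x, H (fl x j) * sg (fl x j j) * g (fl x j) :=
    (Equiv.sum_comp (flEquiv j) (fun x => H x * sg (x j) * g x)).symm
  have h2 : ∑ x, dd j H x * g x
      = (∑ x, H x * sg (x j) * g x + ∑ x, H (fl x j) * sg (fl x j j) * g (fl x j)) / 2 := by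
    rw [← Finset.sum_add_distrib, Finset.sum_div]
    refine Finset.sum_congr rfl fun x _ => ?_
    rw [hg, sg_fl, ← sg_mul_sub]
    ring
  rw [h2, ← h1]
  ring

end Pool.Agent.Helper79.ST
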